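import Pool.Agent.H844.Hgt.Path

/-!
# The Hodge index property on the sum of the Beauville components
-/

set_option autoImplicit false

namespace Pool.Agent.H844.Hgt

universe u v

variable {C : Type u} {W : Type v} [CommRing C] [Algebra ℚ C] [AddCommGroup W] [Module ℚ W]
  [Module C W] [IsScalarTower ℚ C W]

/-- The filtration by the Beauville degree. -/
def Fil (part : ℤ → ℤ → Submodule ℚ W) (i s : ℤ) : Submodule ℚ W := ⨆ s', ⨆ (_ : s ≤ s'), part i s'

variable {n : ℕ} {part : ℤ → ℤ → Submodule ℚ W} {Sym Anti : Set C} {ht : W →ₗ[ℚ] W →ₗ[ℚ] ℝ}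

lemma part_le_Fil {i s s' : ℤ} (h : s ≤ s') : part i s' ≤ Fil part i s :=
  le_iSup₂_of_le s' h le_rfl

lemma Fil_anti {i s t : ℤ} (h : s ≤ t) : Fil part i t ≤ Fil part i s :=
  iSup₂_le fun _ hs' => part_le_Fil (h.trans hs')

lemma exists_lead {i : ℤ} {x : W} (hx : x ∈ Ch0 part i) (hx0 : x ≠ 0) :
    ∃ s, ∃ x0 ∈ part i s, x0 ≠ 0 ∧ ∃ y ∈ Fil part i (s + 1), x = x0 + y := by
  classical
  obtain ⟨f, hf, rfl⟩ := (Submodule.mem_iSup_iff_exists_finsupp _ _).1 hx
  have hne : f.support.Nonempty := by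
    rw [Finsupp.support_nonempty_iff]
    rintro rfl
    exact hx0 (by simp)
  refine ⟨f.support.min' hne, f (f.support.min' hne), hf _, ?_,
    ∑ s ∈ f.support.erase (f.support.min' hne), f s, ?_, ?_⟩
  · exact Finsupp.mem_support_iff.1 (Finset.min'_mem _ hne)
  · refine Submodule.sum_mem _ fun s hs => ?_
    have h1 : f.support.min' hne < s := Finset.min'_lt_of_mem_erase_min' _ hne hs
    exact part_le_Fil (by linarith [Int.add_one_le_iff.2 h1]) (hf s)
  · rw [Finset.add_sum_erase _ _ (Finset.min'_mem _ hne)]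
    rfl

omit [Algebra ℚ C] [IsScalarTower ℚ C W] in
lemma Index_of_trans {i k : ℕ} {L L' : C} {T : W →ₗ[ℚ] W} (hT : Function.Injective T)
    (hCh : ∀ x ∈ Ch0 part i, T x ∈ Ch0 part i) (hht : ∀ x y, ht (T x) (T y) = ht x y)
    (hL : ∀ x, T (L • x) = L' • T x) (hI : Index part ht i k L') : Index part ht i k L := by
  have hp : ∀ (m : ℕ) (x : W), T (L ^ m • x) = L' ^ m • T x := by
    intro m
    induction m with
    | zero => intro x; simp
    | succ m ih => intro x; rw [pow_succ, mul_smul, ih, hL, ← mul_smul, ← pow_succ]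
  intro x hx hx0 h0
  have h1 := hI (T x) (hCh x hx) (fun h => hx0 (hT (h.trans (map_zero T).symm))) (by
    rw [← hp, h0, map_zero])
  rw [← hp, hht] at h1
  exact h1

namespace IsAbelianCycles

variable (hA : IsAbelianCycles n part Sym Anti ht)

include hA

lemma sym_Fil {L : C} (hL : L ∈ Sym) {i s : ℤ} {x : W} (hx : x ∈ Fil part i s) :
    L • x ∈ Fil part (i + 1) s := by
  have h : Fil part i s ≤ (Fil part (i + 1) s).comap (Algebra.lsmul ℚ ℚ W L) :=
    iSup₂_le fun s' hs' y hy => part_le_Fil hs' (hA.sym_mul L hL i s' y hy)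
  exact h hx

lemma anti_Fil {a : C} (ha : a ∈ Anti) {i s : ℤ} {x : W} (hx : x ∈ Fil part i s) :
    a • x ∈ Fil part (i + 1) (s + 1) := by
  have h : Fil part i s ≤ (Fil part (i + 1) (s + 1)).comap (Algebra.lsmul ℚ ℚ W a) :=
    iSup₂_le fun s' hs' y hy => part_le_Fil (by linarith) (hA.anti_mul a ha i s' y hy)
  exact h hx

lemma orth_Fil {i j s t : ℤ} (hst : 3 ≤ s + t) {x y : W} (hx : x ∈ Fil part i s)
    (hy : y ∈ Fil part j t) : ht x y = 0 := by
  have h1 : ∀ s', s ≤ s' → ∀ x ∈ part i s', ht x y = 0 := by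
    intro s' hs' x hx
    have h : Fil part j t ≤ LinearMap.ker (ht x) :=
      iSup₂_le fun t' ht' z hz => hA.ht_orth i j s' t' (by intro h'; omega) x hx z hz
    exact h hy
  have h : Fil part i s ≤ LinearMap.ker (ht.flip y) :=
    iSup₂_le fun s' hs' z hz => h1 s' hs' z hz
  exact h hx

/-- The leading term of a product with ample classes. -/
lemma lead {ι : Type*} (T : Finset ι) {M S a : ι → C} (hS : ∀ p, S p ∈ Sym)
    (ha : ∀ p, a p ∈ Anti) (hM : ∀ p, M p = S p + a p) {i s : ℤ} {x y : W} (hx : x ∈ part i s)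
    (hy : y ∈ Fil part i (s + 1)) : (∏ p ∈ T, S p) • x ∈ part (i + T.card) s ∧
      ∃ z ∈ Fil part (i + T.card) (s + 1), (∏ p ∈ T, M p) • (x + y) = (∏ p ∈ T, S p) • x + z := by
  classical
  induction T using Finset.induction_on with
  | empty => exact ⟨by simpa using hx, y, by simpa using hy, by simp⟩
  | insert p T hp ih =>
    obtain ⟨h1, z, hz, hzx⟩ := ih
    have e : i + ((insert p T).card : ℤ) = i + T.card + 1 := by
      rw [Finset.card_insert_of_notMem hp]; push_cast; ring
    rw [e, Finset.prod_insert hp, Finset.prod_insert hp, mul_smul, mul_smul, hzx]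
    refine ⟨hA.sym_mul _ (hS p) _ _ _ h1, S p • z + a p • ((∏ p ∈ T, S p) • x + z), ?_, ?_⟩
    · refine Submodule.add_mem _ (hA.sym_Fil (hS p) hz) ?_
      exact hA.anti_Fil (ha p) (Submodule.add_mem _ (part_le_Fil le_rfl h1)
        (Fil_anti (by linarith) hz))
    · rw [hM, add_smul, smul_add (S p)]
      abel

lemma lead_zero {i s : ℤ} {x y : W} (hx : x ∈ part i s) (hy : y ∈ Fil part i (s + 1))
    (h : x + y = 0) : x = 0 := by
  have h1 := (hA.indep i) s
  rw [Submodule.disjoint_def] at h1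
  refine h1 x hx ?_
  have h2 : x = -y := eq_neg_of_add_eq_zero_left h
  rw [h2]
  refine Submodule.neg_mem _ ?_
  have h3 : Fil part i (s + 1) ≤ ⨆ s', ⨆ (_ : s' ≠ s), part i s' :=
    iSup₂_le fun s' hs' => le_iSup₂_of_le s' (by intro h; linarith [h, hs']) le_rfl
  exact h3 hy

/-- **From one symmetric ample class to all products of ample classes.** -/
theorem mixed {i k : ℕ} (hik : n + 1 = 2 * i + k) {L : C} (hL : L ∈ Sym)
    (hI : Index part ht i k L) {M : Fin (k + 1) → C} (hM : ∀ p, M p ∈ Ample Sym Anti) :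
    MixedIndex part ht i k M := by
  intro x hx hx0 h0
  choose S hS a ha hMS using hM
  obtain ⟨s, x0, hx0', hx00, y, hy, rfl⟩ := exists_lead hx hx0
  obtain ⟨h1, z, hz, hzx⟩ := hA.lead Finset.univ hS ha hMS hx0' hy
  have h2 : (∏ p, S p) • x0 = 0 := hA.lead_zero h1 hz (hzx.symm.trans h0)
  obtain ⟨U, hU, hUp, hxU⟩ := hA.locFin i s x0 hx0'
  have hikz : (n : ℤ) + 1 = 2 * i + k := by exact_mod_cast hik
  rcases lt_trichotomy s 1 with hs | hs | hs
  · exfalso
    apply hx00
    have hr : (((2 - s).toNat : ℕ) : ℤ) = 2 - s := Int.toNat_of_nonneg (by linarith)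
    refine inj_of_inj hU (k := k) (r := (2 - s).toNat) (by push_cast; rw [hr]; linarith) hL ?_ hS
      hxU h2
    intro u hu hu0
    by_contra hne
    have h3 := hI u (Submodule.mem_iSup_of_mem s (hUp _ hu)) hne hu0
    rw [hA.ht_orth i (i + k) s s (by intro h; omega) u (hUp _ hu) _
      (hUp _ (hU.pow_mem hL hu k)), mul_zero] at h3
    exact lt_irrefl _ h3
  · subst hs
    have h3 := mixed_of_index hU hA.ht_adj (i := i) (k := k) (by linarith) hL
      (ε := (-1) ^ i) (fun u hu hu0 hu1 => hI u (Submodule.mem_iSup_of_mem 1 (hUp _ hu)) hu0 hu1)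
      hA.ht_symm (by positivity) (M := fun p => S p.castSucc) (fun p => hS _) (hS (Fin.last k))
      hxU hx00 (by rw [mul_comm, ← Fin.prod_univ_castSucc]; exact h2)
    obtain ⟨h4, z', hz', hzx'⟩ := hA.lead Finset.univ (fun p : Fin k => hS p.castSucc)
      (fun p => ha p.castSucc) (fun p => hMS p.castSucc) hx0' hy
    rw [hzx', map_add ht, LinearMap.add_apply, map_add, map_add,
      hA.orth_Fil (by norm_num) (part_le_Fil le_rfl hx0') hz',
      hA.orth_Fil (by norm_num) hy (part_le_Fil le_rfl h4),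
      hA.orth_Fil (by norm_num) hy hz', add_zero, add_zero, add_zero]
    exact h3
  · exfalso
    apply hx00
    have hr : (((s - 2).toNat : ℕ) : ℤ) = s - 2 := Int.toNat_of_nonneg (by linarith)
    exact inj_of_large hU (k := k) (r := (s - 2).toNat) (by push_cast; rw [hr]; linarith) hL hS
      hxU h2

/-- **The Hodge index property for one ample class implies it for all products of ample
classes.** -/
theorem main (hne : Sym.Nonempty) {i k : ℕ} (hik : n + 1 = 2 * i + k) :
    List.TFAE [∃ L ∈ Ample Sym Anti, Index part ht i k L, ∀ L ∈ Ample Sym Anti, Index part ht i k L,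
      ∀ M : Fin (k + 1) → C, (∀ p, M p ∈ Ample Sym Anti) → MixedIndex part ht i k M] := by
  tfae_have 1 → 3 := by
    rintro ⟨_, ⟨L, hL, a, ha, rfl⟩, hI⟩ M hM
    obtain ⟨T, hT, hCh, hht, hTL⟩ := hA.trans L hL a ha
    exact hA.mixed hik hL (Index_of_trans hT.1 (fun x hx => (hCh i x).2 hx) hht hTL hI) hM
  tfae_have 3 → 2 := by
    intro h L hL x hx hx0 h0
    have h1 := h (fun _ => L) (fun _ => hL) x hx hx0 (by rw [Fin.prod_const]; exact h0)
    rw [Fin.prod_const] at h1
    exact h1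
  tfae_have 2 → 1 := by
    intro h
    obtain ⟨L, hL⟩ := hne
    have hL' : L ∈ Ample Sym Anti := ⟨L, hL, 0, hA.zero_mem, (add_zero L).symm⟩
    exact ⟨L, hL', h L hL'⟩
  tfae_finish

end IsAbelianCycles

end Pool.Agent.H844.Hgt
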