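import Pool.Agent.H844.Hgt.St
import Pool.Agent.H844.Hgt.Comb

/-!
# The definitions of the statement and those of the proof
-/

open scoped TensorProduct

set_option autoImplicit false

namespace Pool.Agent.H844.Hgt

universe u v

variable {C : Type u} {W : Type v} [CommRing C] [Algebra ℚ C] [AddCommGroup W] [Module ℚ W]
  [Module C W] [IsScalarTower ℚ C W]

lemma act_eq_mulR (a : ℝ) (c : C) : act (W := W) (a ⊗ₜ[ℚ] c) = St.mulR W a c := by
  have h : act (W := W) (a ⊗ₜ[ℚ] c) = algebraMap ℝ (Module.End ℝ (ℝ ⊗[ℚ] W)) a *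
      Module.End.baseChangeHom ℚ ℝ W (Algebra.lsmul ℚ ℚ W c) :=
    Algebra.TensorProduct.lift_tmul _ _ _ _ _
  rw [h, ← Algebra.smul_def]
  rfl

lemma act_ample {Sym : Set C} {δ : ℝ ⊗[ℚ] C} (h : RealAmple Sym δ) :
    St.RealAmple Sym (act (W := W) δ) := by
  induction h with
  | of ha hL => rw [act_eq_mulR]; exact St.RealAmple.of ha hL
  | add _ _ h h' => rw [map_add]; exact St.RealAmple.add h h'

lemma act_prod {m : ℕ} (δ : Fin m → ℝ ⊗[ℚ] C) :
    St.prodOp (fun p => act (W := W) (δ p)) = act (∏ p, δ p) := by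
  rw [St.prodOp, ← List.prod_ofFn, map_list_prod, List.map_ofFn]
  rfl

lemma isLefschetz_of {c : ℤ} {Sym : Set C} {U : St.Gr W} (h : St.IsLefschetz c Sym U) :
    IsLefschetz c Sym U where
  fin := h.fin
  mul := h.mul
  hard := by
    intro j m hm δ hδ
    have := h.hard j m hm (fun p => act (δ p)) fun p => act_ample (hδ p)
    rw [act_prod] at this
    exact this

lemma isAbelianCycles_of {n : ℕ} {part : ℤ → St.Gr W} {Sym Anti : Set C} {ht : St.Pairing W}
    (h : St.IsAbelianCycles n part Sym Anti ht) : IsAbelianCycles n part Sym Anti ht where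
  range := h.range
  indep := h.indep
  sym_mul := by
    intro L hL i s x hx
    have := h.sym L hL i s x hx
    rwa [add_zero] at this
  anti_mul := h.anti
  locFin := by
    intro i s x hx
    obtain ⟨U, hU, h1, h2⟩ := h.locally i s x hx
    exact ⟨U, isLefschetz_of hU, h1, h2⟩
  ht_symm := h.symm
  ht_adj := h.proj
  ht_orth := h.orth
  zero_mem := h.zero_mem
  trans := by
    intro L hL a ha
    obtain ⟨T, hT⟩ := h.trans L hL a ha
    exact ⟨(AddMonoidHom.mk' T hT.add).toRatLinearMap, hT.bij, hT.codim, hT.height, hT.mul⟩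

/-- **The Hodge index property for one ample class implies it for all products of ample
classes.** -/
theorem main {n : ℕ} {part : ℤ → St.Gr W} {Sym Anti : Set C} {ht : St.Pairing W}
    (h : St.IsAbelianCycles n part Sym Anti ht) (hne : Sym.Nonempty) {i k : ℕ}
    (hik : n + 1 = 2 * i + k) :
    List.TFAE [∃ L ∈ St.Ample Sym Anti, St.Index part ht i k L,
      ∀ L ∈ St.Ample Sym Anti, St.Index part ht i k L,
      ∀ M : Fin (k + 1) → C, (∀ p, M p ∈ St.Ample Sym Anti) → St.MixedIndex part ht i k M] :=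
  (isAbelianCycles_of h).main hne hik

end Pool.Agent.H844.Hgt
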