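import Pool.Agent.H844.Hgt.Comb

/-!
# Hard Lefschetz: vanishing outside the degree one
-/

set_option autoImplicit false

namespace Pool.Agent.H844.Hgt

universe u v

variable {C : Type u} {W : Type v} [CommRing C] [Algebra ℚ C] [AddCommGroup W] [Module ℚ W]
  [Module C W] [IsScalarTower ℚ C W]

variable {n : ℕ} {part : ℤ → ℤ → Submodule ℚ W} {Sym Anti : Set C} {ht : W →ₗ[ℚ] W →ₗ[ℚ] ℝ}

/-- Question 1 in the codimension `i` for the operator `c`. -/
def BijAt (part : ℤ → ℤ → Submodule ℚ W) (i k : ℕ) (c : C) : Prop :=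
  Set.BijOn (fun x : W => c • x) (Ch0 part i) (Ch0 part (i + k))

/-- The components of degree different from one are zero. -/
def Vanish (part : ℤ → ℤ → Submodule ℚ W) : Prop := ∀ i s, s ≠ 1 → part i s = ⊥

/-- The lowest degree of a Lefschetz space. -/
lemma IsLefschetz.exists_low {c : ℤ} {U : ℤ → Submodule ℚ W} (hU : IsLefschetz c Sym U)
    (hne : Sym.Nonempty) (h0 : ∀ j < 0, U j = ⊥) {i : ℤ} {x : W} (hx : x ∈ U i) (hx0 : x ≠ 0) :
    ∃ j : ℕ, 2 * (j : ℤ) ≤ c ∧ (∃ y ∈ U j, y ≠ 0) ∧ (∃ w ∈ U (c - j), w ≠ 0) ∧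
      ∀ a, c - j < a → U a = ⊥ := by
  classical
  obtain ⟨L, hL⟩ := hne
  -- duality
  have hdual : ∀ a : ℤ, U a = ⊥ → 2 * a ≤ c → U (c - a) = ⊥ := by
    intro a ha hac
    have hm : (((c - 2 * a).toNat : ℕ) : ℤ) = c - 2 * a := Int.toNat_of_nonneg (by linarith)
    have e : c - a = a + ((c - 2 * a).toNat : ℕ) := by rw [hm]; ring
    rw [eq_bot_iff, e]
    intro w hw
    obtain ⟨z, hz, rfl⟩ := hU.surj (by rw [hm]; ring) (M := fun _ => L) (fun _ => hL) hw
    rw [ha, Submodule.mem_bot] at hz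
    rw [hz, smul_zero]; exact Submodule.zero_mem _
  have hdual' : ∀ a : ℤ, U (c - a) = ⊥ → 2 * a ≤ c → U a = ⊥ := by
    intro a ha hac
    have hm : (((c - 2 * a).toNat : ℕ) : ℤ) = c - 2 * a := Int.toNat_of_nonneg (by linarith)
    have e : c - a = a + ((c - 2 * a).toNat : ℕ) := by rw [hm]; ring
    rw [eq_bot_iff]
    intro w hw
    have h1 := hU.pow_mem hL hw (c - 2 * a).toNat
    rw [← e, ha, Submodule.mem_bot] at h1
    rw [Submodule.mem_bot]
    refine hU.inj (by rw [hm]; ring) (M := fun _ : Fin (c - 2 * a).toNat => L) (fun _ => hL) hw ?_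
    rw [Fin.prod_const]; exact h1
  have hi : 0 ≤ i := by
    by_contra h
    rw [h0 i (by linarith), Submodule.mem_bot] at hx
    exact hx0 hx
  have hex : ∃ j : ℕ, U j ≠ ⊥ := by
    refine ⟨i.toNat, fun h => ?_⟩
    rw [Int.toNat_of_nonneg hi] at h
    rw [h, Submodule.mem_bot] at hx
    exact hx0 hx
  set j := Nat.find hex with hj
  have hjne : U j ≠ ⊥ := Nat.find_spec hex
  have hlow : ∀ a : ℤ, a < j → U a = ⊥ := by
    intro a ha
    by_cases ha0 : a < 0
    · exact h0 a ha0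
    · push Not at ha0
      have h1 : a.toNat < j := by omega
      have h2 := Nat.find_min hex h1
      push Not at h2
      rwa [Int.toNat_of_nonneg ha0] at h2
  have hjc : 2 * (j : ℤ) ≤ c := by
    by_contra h
    push Not at h
    apply hjne
    have h1 := hlow (c - j) (by linarith)
    have h2 := hdual (c - j) h1 (by linarith)
    rwa [sub_sub_cancel] at h2
  refine ⟨j, hjc, (Submodule.ne_bot_iff _).1 hjne, ?_, ?_⟩
  · refine (Submodule.ne_bot_iff _).1 fun h => hjne (hdual' j h hjc)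
  · intro a ha
    have h1 := hdual (c - a) (hlow _ (by linarith)) (by linarith)
    rwa [sub_sub_cancel] at h1

/-- The component of degree `s`. -/
lemma exists_comp {i : ℤ} (s : ℤ) {z : W} (hz : z ∈ Ch0 part i) :
    ∃ z0 ∈ part i s, ∃ z' ∈ ⨆ s', ⨆ (_ : s' ≠ s), part i s', z = z0 + z' := by
  have h : Ch0 part i ≤ part i s ⊔ ⨆ s', ⨆ (_ : s' ≠ s), part i s' := by
    refine iSup_le fun s' => ?_
    by_cases h : s' = s
    · subst h; exact le_sup_left
    · exact le_sup_of_le_right (le_iSup₂_of_le s' h le_rfl)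
  obtain ⟨z0, h0, z', h1, rfl⟩ := Submodule.mem_sup.1 (h hz)
  exact ⟨z0, h0, z', h1, rfl⟩

namespace IsAbelianCycles

variable (hA : IsAbelianCycles n part Sym Anti ht)

include hA

lemma pow_part {L : C} (hL : L ∈ Sym) (m : ℕ) {i s : ℤ} {x : W} (hx : x ∈ part i s) :
    L ^ m • x ∈ part (i + m) s := by
  obtain ⟨U, hU, h1, h2⟩ := hA.locFin i s x hx
  exact h1 _ (hU.pow_mem hL h2 m)

lemma comp_eq {L : C} (hL : L ∈ Sym) {i s : ℤ} {m : ℕ} {z z' w : W} (hz : z ∈ part i s)
    (hz' : z' ∈ ⨆ s', ⨆ (_ : s' ≠ s), part i s') (hw : w ∈ part (i + m) s)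
    (h : L ^ m • (z + z') = w) : L ^ m • z = w := by
  have h1 := hA.indep (i + m) s
  rw [Submodule.disjoint_def] at h1
  have h2 : L ^ m • z' ∈ ⨆ s', ⨆ (_ : s' ≠ s), part (i + m) s' := by
    have h3 : (⨆ s', ⨆ (_ : s' ≠ s), part i s') ≤
        (⨆ s', ⨆ (_ : s' ≠ s), part (i + m) s').comap (Algebra.lsmul ℚ ℚ W (L ^ m)) :=
      iSup₂_le fun s' hs' y hy => (le_iSup₂_of_le (f := fun s' (_ : s' ≠ s) => part (i + m) s')
        s' hs' le_rfl) (hA.pow_part hL m hy)
    exact h3 hz'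
  have h3 : w - L ^ m • z = L ^ m • z' := by rw [← h, smul_add]; abel
  have h4 := h1 (w - L ^ m • z) (Submodule.sub_mem _ hw (hA.pow_part hL m hz)) (by rw [h3]; exact h2)
  exact (sub_eq_zero.1 h4).symm

/-- **Question 1 for all codimensions implies the vanishing.** -/
theorem vanish_of_bij {L : C} (hL : L ∈ Sym)
    (hB : ∀ i k : ℕ, n + 1 = 2 * i + k → BijAt part i k (L ^ k)) : Vanish part := by
  intro i s hs
  by_contra hne
  obtain ⟨x, hx, hx0⟩ := (Submodule.ne_bot_iff _).1 hne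
  obtain ⟨U, hU, hUp, hxU⟩ := hA.locFin i s x hx
  have hlow : ∀ j < 0, U j = ⊥ := by
    intro j hj
    rw [eq_bot_iff, ← hA.range j s (Or.inl hj)]
    exact hUp j
  obtain ⟨j, hjc, ⟨y, hy, hy0⟩, ⟨w, hw, hw0⟩, hup⟩ := hU.exists_low ⟨L, hL⟩ hlow hxU hx0
  rcases lt_or_gt_of_ne hs with hs | hs
  · -- the kernel
    obtain ⟨k, hk⟩ : ∃ k : ℕ, n + 1 = 2 * j + k := ⟨n + 1 - 2 * j, by omega⟩
    have hkz : (n : ℤ) + 1 = 2 * j + k := by exact_mod_cast hk
    have h1 : L ^ k • y = 0 := by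
      have := hU.pow_mem hL hy k
      rwa [hup _ (by linarith), Submodule.mem_bot] at this
    have h2 := (hB j k hk).injOn (Submodule.mem_iSup_of_mem s (hUp _ hy)) (Submodule.zero_mem _)
      (by simp only [smul_zero]; exact h1)
    exact hy0 h2
  · -- the cokernel
    by_cases hn : n < (n + s) - (j : ℤ)
    · have h1 := hUp _ hw
      rw [hA.range _ s (Or.inr hn), Submodule.mem_bot] at h1
      exact hw0 h1
    · push Not at hn
      have hj : (0 : ℤ) ≤ j + 1 - s := by
        by_contra h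
        push Not at h
        have : (j : ℤ) + 1 ≤ s - 1 + 1 := by omega
        omega
      obtain ⟨i', hi'⟩ : ∃ i' : ℕ, (i' : ℤ) = j + 1 - s := ⟨(j + 1 - s).toNat,
        Int.toNat_of_nonneg hj⟩
      obtain ⟨k, hk⟩ : ∃ k : ℕ, n + 1 = 2 * i' + k := ⟨n + 1 - 2 * i', by omega⟩
      have hkz : (n : ℤ) + 1 = 2 * i' + k := by exact_mod_cast hk
      have e : (n : ℤ) + s - j = i' + k := by linarith
      rw [e] at hw
      obtain ⟨z, hz, hzw⟩ := (hB i' k hk).surjOn (Submodule.mem_iSup_of_mem s (hUp _ hw))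
      obtain ⟨z0, hz0, z', hz', rfl⟩ := exists_comp s hz
      have h1 := hA.comp_eq hL hz0 hz' (hUp _ hw) hzw
      obtain ⟨U', hU', -, hzU⟩ := hA.locFin _ s z0 hz0
      have h2 : L ^ (k + 1) • z0 = 0 := by
        rw [pow_succ', mul_smul, h1]
        have := hU.mul L hL _ w hw
        rwa [hup _ (by linarith), Submodule.mem_bot] at this
      have hr : (((s - 2).toNat : ℕ) : ℤ) = s - 2 := Int.toNat_of_nonneg (by omega)
      have h3 := inj_of_large hU' (i := i') (k := k) (r := (s - 2).toNat)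
        (by push_cast; rw [hr]; linarith) hL (M := fun _ => L) (fun _ => hL) hzU
        (by rw [Fin.prod_const]; exact h2)
      rw [h3, smul_zero] at h1
      exact hw0 h1.symm

/-- **The vanishing implies the mixed form of question 1.** -/
theorem bij_of_vanish (hV : Vanish part) {i k : ℕ} (hik : n + 1 = 2 * i + k)
    {M : Fin k → C} (hM : ∀ p, M p ∈ Ample Sym Anti) : BijAt part i k (∏ p, M p) := by
  classical
  choose S hS a ha hMS using hM
  have hikz : (n : ℤ) + 1 = 2 * i + k := by exact_mod_cast hik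
  have hCh : ∀ j : ℤ, Ch0 part j = part j 1 := by
    intro j
    apply le_antisymm
    · refine iSup_le fun s => ?_
      by_cases h : s = 1
      · subst h; exact le_rfl
      · rw [hV j s h]; exact bot_le
    · exact le_iSup (part j) 1
  have hprod : ∀ (T : Finset (Fin k)) (j : ℤ), ∀ x ∈ part j 1,
      (∏ p ∈ T, M p) • x = (∏ p ∈ T, S p) • x ∧ (∏ p ∈ T, S p) • x ∈ part (j + T.card) 1 := by
    intro T j x hx
    induction T using Finset.induction_on with
    | empty => exact ⟨by simp, by simpa using hx⟩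
    | insert p T hp ih =>
      have e : j + ((insert p T).card : ℤ) = j + T.card + 1 := by
        rw [Finset.card_insert_of_notMem hp]; push_cast; ring
      rw [Finset.prod_insert hp, Finset.prod_insert hp, mul_smul, mul_smul, ih.1, e]
      refine ⟨?_, hA.sym_mul _ (hS p) _ _ _ ih.2⟩
      have h1 := hA.anti_mul _ (ha p) _ _ _ ih.2
      rw [hV _ _ (by norm_num), Submodule.mem_bot] at h1
      rw [hMS, add_smul, h1, add_zero]
  rw [BijAt, hCh, hCh]
  refine ⟨?_, ?_, ?_⟩
  · intro x hx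
    have := hprod Finset.univ i x hx
    change (∏ p, M p) • x ∈ part (i + k) 1
    rw [this.1]
    have h2 := this.2
    simpa using h2
  · intro x hx y hy hxy
    have hxy' : (∏ p, M p) • (x - y) = 0 := by
      rw [smul_sub, sub_eq_zero]; exact hxy
    have hm : x - y ∈ part i 1 := Submodule.sub_mem _ hx hy
    rw [(hprod Finset.univ i _ hm).1] at hxy'
    obtain ⟨U, hU, -, hxU⟩ := hA.locFin _ 1 _ hm
    exact sub_eq_zero.1 (hU.inj (by linarith) hS hxU hxy')
  · intro w hw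
    obtain ⟨U, hU, hUp, hwU⟩ := hA.locFin _ 1 w hw
    obtain ⟨x, hx, hxw⟩ := hU.surj (by linarith) hS hwU
    refine ⟨x, hUp _ hx, ?_⟩
    change (∏ p, M p) • x = w
    rw [(hprod Finset.univ i _ (hUp _ hx)).1, hxw]

omit [Algebra ℚ C] [IsScalarTower ℚ C W] hA in
lemma bij_of_trans {i k : ℕ} {L L' : C} {T : W →ₗ[ℚ] W} (hT : Function.Bijective T)
    (hCh : ∀ i x, T x ∈ Ch0 part i ↔ x ∈ Ch0 part i)
    (hL : ∀ x, T (L • x) = L' • T x) (hB : BijAt part i k (L' ^ k)) : BijAt part i k (L ^ k) := by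
  have hp : ∀ (m : ℕ) (x : W), T (L ^ m • x) = L' ^ m • T x := by
    intro m
    induction m with
    | zero => intro x; simp
    | succ m ih => intro x; rw [pow_succ, mul_smul, ih, hL, ← mul_smul, ← pow_succ]
  refine ⟨?_, ?_, ?_⟩
  · intro x hx
    have h1 := hB.mapsTo ((hCh i x).2 hx)
    change L' ^ k • T x ∈ Ch0 part (i + k) at h1
    rw [← hp] at h1
    exact (hCh _ _).1 h1
  · intro x hx y hy hxy
    apply hT.1
    apply hB.injOn ((hCh i x).2 hx) ((hCh i y).2 hy)
    change L' ^ k • T x = L' ^ k • T y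
    rw [← hp, ← hp]
    exact congrArg T hxy
  · intro w hw
    obtain ⟨z, hz, hzw⟩ := hB.surjOn ((hCh _ w).2 hw)
    obtain ⟨z', rfl⟩ := hT.2 z
    refine ⟨z', (hCh _ _).1 hz, hT.1 ?_⟩
    rw [← hzw]
    exact hp k z'

/-- **Question 1 for all codimensions and one ample class is the vanishing.** -/
theorem vanish_of_ample {L : C} (hL : L ∈ Ample Sym Anti)
    (hB : ∀ i k : ℕ, n + 1 = 2 * i + k → BijAt part i k (L ^ k)) : Vanish part := by
  obtain ⟨S, hS, a, ha, rfl⟩ := hL
  obtain ⟨T, hT, hCh, -, hTL⟩ := hA.trans S hS a ha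
  exact hA.vanish_of_bij hS fun i k hik => bij_of_trans hT hCh hTL (hB i k hik)

end IsAbelianCycles

end Pool.Agent.H844.Hgt
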