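import Pool.Agent.H844.Hgt.St2
import Pool.Agent.H844.Hgt.Conv
import Pool.Agent.H844.Hgt.Lef1

/-!
# Quotients of abelian varieties
-/

set_option autoImplicit false

namespace Pool.Agent.H844.Hgt

universe u v

open St

lemma AV_old (A : AV.{u, v}) : IsAbelianCycles A.dim A.part A.Sym A.Anti A.ht :=
  isAbelianCycles_of A.isAbelian

section Binomial

variable {C : Type u} {W : Type v} [CommRing C] [AddCommGroup W] [Module C W]

/-- `(a + m)^(k+b) x` for `a^(k+1) x = 0` and `m^(b+1) = 0` on all `a^j x`. -/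
lemma binom_top {a m : C} {x : W} {k b : ℕ} (h1 : ∀ j, k < j → a ^ j • x = 0)
    (h2 : ∀ j, m ^ (b + 1) • (a ^ j • x) = 0) :
    (a + m) ^ (k + b) • x = (k + b).choose k • (m ^ b • (a ^ k • x)) := by
  rw [add_pow, Finset.sum_smul, Finset.sum_eq_single k]
  · rw [Nat.add_sub_cancel_left, mul_comm (a ^ k * m ^ b), mul_smul, mul_comm (a ^ k), mul_smul,
      Nat.cast_smul_eq_nsmul]
  · intro j hj hjk
    have e : a ^ j * m ^ (k + b - j) * (((k + b).choose j : ℕ) : C) =
        (((k + b).choose j : ℕ) : C) * m ^ (k + b - j) * a ^ j := by ring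
    rw [e, mul_smul]
    rcases lt_or_gt_of_ne hjk with h | h
    · have e2 : m ^ (k + b - j) = m ^ (k - j - 1) * m ^ (b + 1) := by
        rw [← pow_add]; congr 1; omega
      rw [mul_smul, e2, mul_smul, h2, smul_zero, smul_zero]
    · rw [h1 j h, smul_zero]
  · intro h
    exact absurd (Finset.mem_range.2 (by omega)) h

lemma binom_zero {a m : C} {x : W} {k b : ℕ} (h1 : ∀ j, k < j → a ^ j • x = 0)
    (h2 : ∀ j, m ^ (b + 1) • (a ^ j • x) = 0) : (a + m) ^ (k + b + 1) • x = 0 := by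
  rw [add_pow, Finset.sum_smul]
  refine Finset.sum_eq_zero fun j hj => ?_
  have e : a ^ j * m ^ (k + b + 1 - j) * (((k + b + 1).choose j : ℕ) : C) =
      (((k + b + 1).choose j : ℕ) : C) * m ^ (k + b + 1 - j) * a ^ j := by ring
  rw [e, mul_smul]
  rcases Nat.lt_or_ge k j with h | h
  · rw [h1 j h, smul_zero]
  · have e2 : m ^ (k + b + 1 - j) = m ^ (k - j) * m ^ (b + 1) := by
      rw [← pow_add]; congr 1; omega
    rw [mul_smul, e2, mul_smul, h2, smul_zero, smul_zero]

end Binomial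

namespace Quot

variable {J A : AV.{u, v}} {p : A.C →+* J.C} {φ : A.W → J.W} {b : ℕ} {M : J.C}
  (h : Pullback J A p φ b M)

include h

lemma zero : φ 0 = 0 := by
  have := h.add 0 0
  rw [add_zero] at this
  exact left_eq_add.1 this

lemma Ch0_mem {i : ℤ} {x : A.W} (hx : x ∈ St.Ch0 A.part i) : φ x ∈ St.Ch0 J.part i := by
  have h1 : St.Ch0 A.part i ≤ (St.Ch0 J.part i).comap
      (AddMonoidHom.mk' φ h.add).toRatLinearMap :=
    iSup_le fun s y hy => Submodule.mem_iSup_of_mem s (h.part i s y hy)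
  exact h1 hx

/-- Question 2 descends to quotients. -/
lemma index {i k : ℕ} {L : A.C}
    (hI : St.Index J.part J.ht i (k + b) (p L + M)) : St.Index A.part A.ht i k L := by
  intro x hx hx0 hLx
  have hpow : ∀ j, p L ^ j • φ x = φ (L ^ j • x) := by
    intro j; rw [← map_pow, ← h.mul]
  have h1 : ∀ j, k < j → p L ^ j • φ x = 0 := by
    intro j hj
    obtain ⟨d, rfl⟩ : ∃ d, j = d + (k + 1) := ⟨j - (k + 1), by omega⟩
    rw [hpow, pow_add, mul_smul, hLx, smul_zero, zero h]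
  have h2 : ∀ j, M ^ (b + 1) • (p L ^ j • φ x) = 0 := by
    intro j; rw [hpow]; exact h.zero _
  have h3 := hI (φ x) (Ch0_mem h hx) (fun h0 => hx0 (h.inj (h0.trans (zero h).symm)))
    (binom_zero h1 h2)
  obtain ⟨δ, hδ, hht⟩ := h.height
  have hc : (0 : ℝ) < (k + b).choose k := by
    exact_mod_cast Nat.choose_pos (Nat.le_add_right k b)
  have h4 : val J.ht (φ x) ((p L + M) ^ (k + b) • φ x) =
      ((k + b).choose k : ℝ) * (δ * val A.ht x (L ^ k • x)) := by
    rw [binom_top h1 h2, hpow, ← hht, val, map_nsmul, nsmul_eq_mul]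
    rfl
  rw [h4] at h3
  have h5 : (-1) ^ i * (((k + b).choose k : ℝ) * (δ * val A.ht x (L ^ k • x))) =
      (((k + b).choose k : ℝ) * δ) * ((-1) ^ i * val A.ht x (L ^ k • x)) := by ring
  rw [h5] at h3
  exact (mul_pos_iff_of_pos_left (mul_pos hc hδ)).1 h3

/-- Question 2 for one ample class on `J` implies the mixed form of question 2 on the quotients of
`J`. -/
lemma mixed {i : ℕ} (hJ : ∃ L ∈ J.ample, J.Q2 i L) : A.MixedQ2 i := by
  intro k hik L hL
  obtain ⟨N, hN, hNI⟩ := hJ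
  have hik' : J.dim + 1 = 2 * i + (k + b) := by rw [h.dim]; omega
  obtain ⟨S, hS⟩ := A.nonempty
  have e1 := (Pool.Agent.H844.Hgt.main J.isAbelian J.nonempty hik').out 0 1
  have e2 := (Pool.Agent.H844.Hgt.main A.isAbelian A.nonempty hik).out 0 2
  have h1 : St.Index J.part J.ht i (k + b) (p S + M) :=
    e1.1 ⟨N, hN, hNI _ hik'⟩ _
      ⟨p S + M, h.sym S hS, 0, J.isAbelian.zero_mem, (add_zero _).symm⟩
  exact e2.1 ⟨S, ⟨S, hS, 0, A.isAbelian.zero_mem, (add_zero _).symm⟩, index h h1⟩ L hL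

lemma vanish (hV : Vanish J.part) : Vanish A.part := by
  intro i s hs
  rw [eq_bot_iff]
  intro x hx
  have h1 := h.part i s x hx
  rw [hV i s hs, Submodule.mem_bot] at h1
  rw [Submodule.mem_bot]
  exact h.inj (h1.trans (zero h).symm)

end Quot

lemma quot_refl (A : AV.{u, v}) : IsQuotient A A := by
  refine ⟨RingHom.id _, id, 0, 0, ?_⟩
  exact
    { dim := rfl
      add := fun _ _ => rfl
      inj := Function.injective_id
      part := fun _ _ _ hx => hx
      mul := fun _ _ => rfl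
      sym := fun L hL => by simpa using hL
      zero := fun x => by simp
      height := ⟨1, one_pos, fun x y => by simp⟩ }

lemma Q1_iff (A : AV.{u, v}) {L : A.C} (hL : L ∈ A.ample) : A.Q1 L ↔ Vanish A.part := by
  constructor
  · intro h
    exact (AV_old A).vanish_of_ample hL h
  · intro h i k hik
    have := (AV_old A).bij_of_vanish h hik (M := fun _ => L) fun _ => hL
    rw [Fin.prod_const] at this
    exact this

lemma MixedQ1_iff (A : AV.{u, v}) : A.MixedQ1 ↔ Vanish A.part := by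
  constructor
  · intro h
    obtain ⟨S, hS⟩ := A.nonempty
    have hS' : S ∈ A.ample := ⟨S, hS, 0, A.isAbelian.zero_mem, (add_zero _).symm⟩
    rw [← Q1_iff A hS']
    intro i k hik
    have := h i k hik (fun _ => S) fun _ => hS'
    rw [Fin.prod_const] at this
    exact this
  · intro h i k hik L hL
    exact (AV_old A).bij_of_vanish h hik hL

/-- **Questions 1 and 2 for all abelian varieties follow from one polarization on the members of a
cofinal class.** -/
theorem classes {𝒥 𝒜 : Set AV.{u, v}} (θ : ∀ J : AV.{u, v}, J.C) (hθ : ∀ J ∈ 𝒥, θ J ∈ J.ample)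
    (hsub : 𝒥 ⊆ 𝒜) (hcof : ∀ A ∈ 𝒜, ∃ J ∈ 𝒥, IsQuotient J A) :
    List.TFAE [∀ J ∈ 𝒥, J.Q1 (θ J), ∀ A ∈ 𝒜, ∀ L ∈ A.ample, A.Q1 L, ∀ A ∈ 𝒜, A.MixedQ1] ∧
    ∀ i : ℕ, List.TFAE [∀ J ∈ 𝒥, J.Q2 i (θ J), ∀ A ∈ 𝒜, ∀ L ∈ A.ample, A.Q2 i L,
      ∀ A ∈ 𝒜, A.MixedQ2 i] := by
  constructor
  · tfae_have 1 → 3 := by
      intro h A hA
      obtain ⟨J, hJ, p, φ, b, M, hq⟩ := hcof A hA
      rw [MixedQ1_iff]
      exact Quot.vanish hq ((Q1_iff J (hθ J hJ)).1 (h J hJ))
    tfae_have 3 → 2 := by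
      intro h A hA L hL
      rw [Q1_iff A hL, ← MixedQ1_iff]
      exact h A hA
    tfae_have 2 → 1 := fun h J hJ => h J (hsub hJ) _ (hθ J hJ)
    tfae_finish
  · intro i
    tfae_have 1 → 3 := by
      intro h A hA
      obtain ⟨J, hJ, p, φ, b, M, hq⟩ := hcof A hA
      exact Quot.mixed hq ⟨θ J, hθ J hJ, h J hJ⟩
    tfae_have 3 → 2 := by
      intro h A hA L hL k hik
      have h1 := h A hA k hik (fun _ => L) fun _ => hL
      intro x hx hx0 h0
      have h2 := h1 x hx hx0 (by rw [Fin.prod_const]; exact h0)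
      rw [Fin.prod_const] at h2
      exact h2
    tfae_have 2 → 1 := fun h J hJ => h J (hsub hJ) _ (hθ J hJ)
    tfae_finish

end Pool.Agent.H844.Hgt
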