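import Mathlib

/-!
# Cycles homologous to zero on an abelian variety: definitions

`C` is the Chow ring (with rational coefficients) of an abelian variety `A` of dimension `n` over a
number field, `W` the `C`-module of the cycles on `A` homologous to zero, `part i s` the Beauville
component `CH^i_(s)(A)^0` (the classes `x` of codimension `i` with `[m]^* x = m ^ (2 i - s) x`), `Sym`
the set of the classes of the symmetric ample line bundles, `Anti` the set `CH^1_(1)(A)` of the
divisor classes algebraically equivalent to zero, and `ht` the height pairing.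
-/

open scoped TensorProduct

set_option autoImplicit false

namespace Pool.Agent.H844.Hgt

universe u v

section Defs

variable {C : Type u} {W : Type v} [CommRing C] [Algebra ℚ C] [AddCommGroup W] [Module ℚ W]
  [Module C W] [IsScalarTower ℚ C W]

/-- The action of `ℝ ⊗ C` on `ℝ ⊗ W`: `(a ⊗ c) (b ⊗ w) = a b ⊗ c w`. -/
noncomputable def act : (ℝ ⊗[ℚ] C) →ₐ[ℝ] Module.End ℝ (ℝ ⊗[ℚ] W) :=
  Algebra.TensorProduct.lift (Algebra.ofId ℝ (Module.End ℝ (ℝ ⊗[ℚ] W)))
    ((Module.End.baseChangeHom ℚ ℝ W).comp (Algebra.lsmul ℚ ℚ W)) fun a _ =>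
      Algebra.commute_algebraMap_left a _

/-- The real ample classes: the convex cone generated by the classes in `Sym`. -/
inductive RealAmple (Sym : Set C) : ℝ ⊗[ℚ] C → Prop
  | of {a : ℝ} {L : C} (ha : 0 < a) (hL : L ∈ Sym) : RealAmple Sym (a ⊗ₜ[ℚ] L)
  | add {x y : ℝ ⊗[ℚ] C} (hx : RealAmple Sym x) (hy : RealAmple Sym y) : RealAmple Sym (x + y)

/-- A graded space `U` of cycles, finite-dimensional in each codimension, which is stable under the
intersection with symmetric ample divisors and satisfies the (mixed) hard Lefschetz theorem with the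
centre `c / 2` for all products of real ample classes. -/
structure IsLefschetz (c : ℤ) (Sym : Set C) (U : ℤ → Submodule ℚ W) : Prop where
  fin : ∀ j, FiniteDimensional ℚ (U j)
  mul : ∀ L ∈ Sym, ∀ j, ∀ x ∈ U j, L • x ∈ U (j + 1)
  hard : ∀ (j : ℤ) (m : ℕ), 2 * j + m = c → ∀ δ : Fin m → ℝ ⊗[ℚ] C, (∀ p, RealAmple Sym (δ p)) →
    Set.BijOn (act (W := W) (∏ p, δ p)) ((U j).baseChange ℝ) ((U (j + m)).baseChange ℝ)

/-- The cycles homologous to zero on an abelian variety of dimension `n`, with the height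
pairing `ht` (set `(x, y) = 0` if the codimensions of `x` and `y` do not add up to `n + 1`). -/
structure IsAbelianCycles (n : ℕ) (part : ℤ → ℤ → Submodule ℚ W) (Sym Anti : Set C)
    (ht : W →ₗ[ℚ] W →ₗ[ℚ] ℝ) : Prop where
  range : ∀ i s : ℤ, i < 0 ∨ (n : ℤ) < i → part i s = ⊥
  /-- the components `CH^i_(s)` form a direct sum -/
  indep : ∀ i, iSupIndep (part i)
  /-- symmetric divisors have degree `0` in the Beauville decomposition -/
  sym_mul : ∀ L ∈ Sym, ∀ i s, ∀ x ∈ part i s, L • x ∈ part (i + 1) s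
  /-- divisors algebraically equivalent to zero have degree `1` in the Beauville decomposition -/
  anti_mul : ∀ a ∈ Anti, ∀ i s, ∀ x ∈ part i s, a • x ∈ part (i + 1) (s + 1)
  /-- every cycle in `CH^i_(s)` lies in a finite-dimensional graded space of cycles with the hard
  Lefschetz property (take the cycles obtained from it by symmetrically distinguished
  correspondences) -/
  locFin : ∀ i s, ∀ x ∈ part i s, ∃ U : ℤ → Submodule ℚ W, IsLefschetz (n + s) Sym U ∧
    (∀ j, U j ≤ part j s) ∧ x ∈ U i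
  /-- the height pairing is symmetric -/
  ht_symm : ∀ x y, ht x y = ht y x
  /-- the projection formula -/
  ht_adj : ∀ (c : C) (x y : W), ht (c • x) y = ht x (c • y)
  /-- the pairing of `CH_(s)` and `CH_(t)` is zero unless `s + t = 2` -/
  ht_orth : ∀ i j s t, s + t ≠ 2 → ∀ x ∈ part i s, ∀ y ∈ part j t, ht x y = 0
  /-- `0` is algebraically equivalent to zero -/
  zero_mem : (0 : C) ∈ Anti
  /-- for `L` symmetric ample and `a` algebraically equivalent to zero, `L + a` is the inverse image
  of `L` under the translation by a point of `A(K) ⊗ ℚ`, which acts on the cycles, preserves the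
  codimension and the height pairing -/
  trans : ∀ L ∈ Sym, ∀ a ∈ Anti, ∃ T : W →ₗ[ℚ] W, Function.Bijective T ∧
    (∀ i x, T x ∈ (⨆ s, part i s) ↔ x ∈ ⨆ s, part i s) ∧ (∀ x y, ht (T x) (T y) = ht x y) ∧
    ∀ x, T (L • x) = (L + a) • T x

/-- The classes of codimension `i` homologous to zero. -/
def Ch0 (part : ℤ → ℤ → Submodule ℚ W) (i : ℤ) : Submodule ℚ W := ⨆ s, part i s

/-- The ample classes: the sums of a symmetric ample class and a class algebraically equivalent to
zero. -/
def Ample (Sym Anti : Set C) : Set C := {L | ∃ S ∈ Sym, ∃ a ∈ Anti, L = S + a}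

/-- Beilinson's Hodge index conjecture (question 2) for the codimension `i`, `k = n + 1 - 2 i`, and
the class `L`: `(-1)^i (x, L^k x) > 0` for all `x ≠ 0` in `Ch^i(X)^0` with `L^(k+1) x = 0`. -/
def Index (part : ℤ → ℤ → Submodule ℚ W) (ht : W →ₗ[ℚ] W →ₗ[ℚ] ℝ) (i k : ℕ) (L : C) : Prop :=
  ∀ x ∈ Ch0 part i, x ≠ 0 → L ^ (k + 1) • x = 0 → 0 < (-1) ^ i * ht x (L ^ k • x)

/-- The mixed Hodge index statement for the codimension `i`, `k = n + 1 - 2 i`, and the classes
`L_0, …, L_k`: `(-1)^i (x, L_0 ⋯ L_(k-1) x) > 0` for all `x ≠ 0` in `Ch^i(X)^0` with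
`L_0 ⋯ L_k x = 0`. -/
def MixedIndex (part : ℤ → ℤ → Submodule ℚ W) (ht : W →ₗ[ℚ] W →ₗ[ℚ] ℝ) (i k : ℕ)
    (L : Fin (k + 1) → C) : Prop :=
  ∀ x ∈ Ch0 part i, x ≠ 0 → (∏ p, L p) • x = 0 →
    0 < (-1) ^ i * ht x ((∏ p : Fin k, L p.castSucc) • x)

end Defs

end Pool.Agent.H844.Hgt
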