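import Pool.Agent.H844.Hgt.Tensor

/-!
# Lefschetz spaces of cycles
-/

open scoped TensorProduct

set_option autoImplicit false

namespace Pool.Agent.H844.Hgt

universe u v

variable {C : Type u} {W : Type v} [CommRing C] [Algebra ℚ C] [AddCommGroup W] [Module ℚ W]
  [Module C W] [IsScalarTower ℚ C W]

lemma prod_one_tmul {ι : Type*} (s : Finset ι) (L : ι → C) :
    ∏ p ∈ s, ((1 : ℝ) ⊗ₜ[ℚ] L p : ℝ ⊗[ℚ] C) = 1 ⊗ₜ[ℚ] ∏ p ∈ s, L p := by
  have h := map_prod (Algebra.TensorProduct.includeRight : C →ₐ[ℚ] ℝ ⊗[ℚ] C) L s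
  exact h.symm

lemma act_one (c : C) (w : W) :
    act (W := W) ((1 : ℝ) ⊗ₜ[ℚ] c) (1 ⊗ₜ[ℚ] w) = 1 ⊗ₜ[ℚ] (c • w) := by
  rw [act_tmul, mul_one]

lemma mem_of_baseChange {P : Submodule ℚ W} {w : W}
    (h : (1 : ℝ) ⊗ₜ[ℚ] w ∈ P.baseChange ℝ) : w ∈ P := by
  by_contra hw
  obtain ⟨φ, h1, h2⟩ := Submodule.exists_le_ker_of_notMem hw
  have h3 : P.baseChange ℝ ≤ LinearMap.ker (φ.baseChange ℝ) := by
    rw [Submodule.baseChange_eq_span, Submodule.span_le]
    rintro _ ⟨x, hx, rfl⟩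
    have : φ x = 0 := h2 hx
    simp [this]
  have h4 := h3 h
  rw [LinearMap.mem_ker, LinearMap.baseChange_tmul] at h4
  exact h1 (one_tmul_eq_zero h4)

namespace IsLefschetz

variable {c : ℤ} {Sym : Set C} {U : ℤ → Submodule ℚ W} (hU : IsLefschetz c Sym U)

include hU

lemma prod_mem {ι : Type*} (s : Finset ι) {M : ι → C} (hM : ∀ p, M p ∈ Sym) {j : ℤ} {x : W}
    (hx : x ∈ U j) : (∏ p ∈ s, M p) • x ∈ U (j + s.card) := by
  classical
  induction s using Finset.induction_on with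
  | empty => simpa using hx
  | insert p s hp ih =>
    rw [Finset.prod_insert hp, mul_smul, Finset.card_insert_of_notMem hp]
    have := hU.mul (M p) (hM p) _ _ ih
    have e : j + (s.card : ℤ) + 1 = j + ((s.card + 1 : ℕ) : ℤ) := by push_cast; ring
    rwa [e] at this

lemma pow_mem {L : C} (hL : L ∈ Sym) {j : ℤ} {x : W} (hx : x ∈ U j) (m : ℕ) :
    L ^ m • x ∈ U (j + m) := by
  have := hU.prod_mem (Finset.univ : Finset (Fin m)) (M := fun _ => L) (fun _ => hL) hx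
  simpa using this

lemma inj {j : ℤ} {m : ℕ} (hm : 2 * j + m = c) {M : Fin m → C} (hM : ∀ p, M p ∈ Sym) {x : W}
    (hx : x ∈ U j) (h0 : (∏ p, M p) • x = 0) : x = 0 := by
  have h := hU.hard j m hm (fun p => 1 ⊗ₜ[ℚ] M p) fun p => RealAmple.of one_pos (hM p)
  rw [prod_one_tmul] at h
  apply one_tmul_eq_zero
  apply h.injOn (Submodule.tmul_mem_baseChange_of_mem 1 hx) (Submodule.zero_mem _)
  rw [act_one, h0, map_zero, TensorProduct.tmul_zero]

lemma surj {j : ℤ} {m : ℕ} (hm : 2 * j + m = c) {M : Fin m → C} (hM : ∀ p, M p ∈ Sym) {w : W}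
    (hw : w ∈ U (j + m)) : ∃ x ∈ U j, (∏ p, M p) • x = w := by
  have h := hU.hard j m hm (fun p => 1 ⊗ₜ[ℚ] M p) fun p => RealAmple.of one_pos (hM p)
  rw [prod_one_tmul] at h
  obtain ⟨z, hz, hzw⟩ := h.surjOn (Submodule.tmul_mem_baseChange_of_mem (1 : ℝ) hw)
  let f : W →ₗ[ℚ] W := Algebra.lsmul ℚ ℚ W (∏ p, M p)
  have h1 : ∀ z ∈ (U j).baseChange ℝ, act (W := W) (1 ⊗ₜ[ℚ] ∏ p, M p) z ∈
      ((U j).map f).baseChange ℝ := by
    intro z hz
    rw [Submodule.baseChange_eq_span] at hz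
    induction hz using Submodule.span_induction with
    | mem x hx =>
      obtain ⟨w, hw, rfl⟩ := hx
      rw [TensorProduct.mk_apply, act_one]
      exact Submodule.tmul_mem_baseChange_of_mem _ ⟨w, hw, rfl⟩
    | zero => rw [map_zero]; exact Submodule.zero_mem _
    | add x y _ _ hx hy => rw [map_add]; exact Submodule.add_mem _ hx hy
    | smul r x _ hx => rw [map_smul]; exact Submodule.smul_mem _ _ hx
  have h2 := h1 z hz
  rw [hzw] at h2
  obtain ⟨x, hx, hxw⟩ := mem_of_baseChange h2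
  exact ⟨x, hx, hxw⟩

lemma real_mul {δ : ℝ ⊗[ℚ] C} (hδ : RealAmple Sym δ) {j : ℤ} {z : ℝ ⊗[ℚ] W}
    (hz : z ∈ (U j).baseChange ℝ) : act δ z ∈ (U (j + 1)).baseChange ℝ := by
  induction hδ with
  | of ha hL =>
    rename_i a L
    rw [Submodule.baseChange_eq_span] at hz
    induction hz using Submodule.span_induction with
    | mem x hx =>
      obtain ⟨w, hw, rfl⟩ := hx
      rw [TensorProduct.mk_apply, act_tmul]
      exact Submodule.tmul_mem_baseChange_of_mem _ (hU.mul L hL j w hw)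
    | zero => rw [map_zero]; exact Submodule.zero_mem _
    | add x y _ _ hx hy => rw [map_add]; exact Submodule.add_mem _ hx hy
    | smul r x _ hx => rw [map_smul]; exact Submodule.smul_mem _ _ hx
  | add hx hy ihx ihy =>
    rw [map_add, LinearMap.add_apply]
    exact Submodule.add_mem _ ihx ihy

/-- The Lefschetz decomposition. -/
lemma decomp {i : ℤ} {k : ℕ} (hc : 2 * i + k = c) {L : C} (hL : L ∈ Sym) {u : W} (hu : u ∈ U i) :
    ∃ u' ∈ U i, L ^ (k + 1) • u' = 0 ∧ ∃ y ∈ U (i - 1), u = u' + L • y := by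
  have h1 : L ^ (k + 1) • u ∈ U ((i - 1) + (k + 2 : ℕ)) := by
    have := hU.pow_mem hL hu (k + 1)
    have e : i + ((k + 1 : ℕ) : ℤ) = (i - 1) + ((k + 2 : ℕ) : ℤ) := by push_cast; ring
    rwa [e] at this
  obtain ⟨y, hy, hyu⟩ := hU.surj (by push_cast; linarith) (M := fun _ => L) (fun _ => hL) h1
  have hLy : L • y ∈ U i := by
    have := hU.mul L hL _ y hy
    rwa [sub_add_cancel] at this
  refine ⟨u - L • y, Submodule.sub_mem _ hu hLy, ?_, y, hy, by abel⟩
  rw [Fin.prod_const] at hyu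
  rw [smul_sub, ← mul_smul, ← pow_succ, hyu, sub_self]

end IsLefschetz

end Pool.Agent.H844.Hgt
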