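import Pool.Agent.H844.Hgt.Lef

/-!
# The Hodge index property does not depend on the polarization: one Lefschetz space
-/

open scoped TensorProduct
open Set

set_option autoImplicit false

namespace Pool.Agent.H844.Hgt

universe u v

variable {C : Type u} {W : Type v} [CommRing C] [Algebra ℚ C] [AddCommGroup W] [Module ℚ W]
  [Module C W] [IsScalarTower ℚ C W]

section Small

variable {c : ℤ} {Sym : Set C} {U : ℤ → Submodule ℚ W} (hU : IsLefschetz c Sym U)

include hU

/-- In a Lefschetz space whose centre is high enough, no class is killed by `k + 1` ample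
classes. -/
lemma inj_of_large {i : ℤ} {k r : ℕ} (hc : 2 * i + ((k + 1 + r : ℕ) : ℤ) = c) {L : C}
    (hL : L ∈ Sym) {M : Fin (k + 1) → C} (hM : ∀ p, M p ∈ Sym) {x : W} (hx : x ∈ U i)
    (h0 : (∏ p, M p) • x = 0) : x = 0 := by
  apply hU.inj hc (M := Fin.append M fun _ : Fin r => L) ?_ hx ?_
  · intro p
    refine Fin.addCases (fun q => ?_) (fun q => ?_) p
    · rw [Fin.append_left]; exact hM q
    · rw [Fin.append_right]; exact hL
  · rw [Fin.prod_univ_add]
    simp only [Fin.append_left, Fin.append_right, Finset.prod_const, Finset.card_univ,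
      Fintype.card_fin]
    rw [mul_comm, mul_smul, h0, smul_zero]

/-- The products of `k + 1` ample classes are surjective. -/
lemma surj_of_small {i : ℤ} {k r : ℕ} (hc : 2 * (i - r) + ((k + 1 + r : ℕ) : ℤ) = c) {L : C}
    (hL : L ∈ Sym) {M : Fin (k + 1) → C} (hM : ∀ p, M p ∈ Sym) {w : W}
    (hw : w ∈ U (i + (k + 1 : ℕ))) : ∃ x ∈ U i, (∏ p, M p) • x = w := by
  have e : i + ((k + 1 : ℕ) : ℤ) = (i - r) + ((k + 1 + r : ℕ) : ℤ) := by push_cast; ring
  rw [e] at hw
  obtain ⟨y, hy, hyw⟩ := hU.surj hc (M := Fin.append M fun _ : Fin r => L) (by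
    intro p
    refine Fin.addCases (fun q => ?_) (fun q => ?_) p
    · rw [Fin.append_left]; exact hM q
    · rw [Fin.append_right]; exact hL) hw
  rw [Fin.prod_univ_add] at hyw
  simp only [Fin.append_left, Fin.append_right, Finset.prod_const, Finset.card_univ,
    Fintype.card_fin] at hyw
  rw [mul_smul] at hyw
  refine ⟨L ^ r • y, ?_, hyw⟩
  have := hU.pow_mem hL hy r
  rwa [sub_add_cancel] at this

/-- If no class of `U i` is killed by `L^(k+1)` then none is killed by other products of `k + 1`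
ample classes. -/
lemma inj_of_inj {i : ℤ} {k r : ℕ} (hc : 2 * (i - r) + ((k + 1 + r : ℕ) : ℤ) = c) {L : C}
    (hL : L ∈ Sym) (hinj : ∀ x ∈ U i, L ^ (k + 1) • x = 0 → x = 0)
    {M : Fin (k + 1) → C} (hM : ∀ p, M p ∈ Sym) {x : W} (hx : x ∈ U i)
    (h0 : (∏ p, M p) • x = 0) : x = 0 := by
  have := hU.fin i
  have := hU.fin (i + (k + 1 : ℕ))
  have hmap : ∀ (N : Fin (k + 1) → C), (∀ p, N p ∈ Sym) → ∀ x ∈ U i,
      Algebra.lsmul ℚ ℚ W (∏ p, N p) x ∈ U (i + (k + 1 : ℕ)) := by
    intro N hN x hx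
    have := hU.prod_mem (Finset.univ : Finset (Fin (k + 1))) hN hx
    simpa using this
  let f : U i →ₗ[ℚ] U (i + (k + 1 : ℕ)) :=
    (Algebra.lsmul ℚ ℚ W (∏ _p : Fin (k + 1), L)).restrict (hmap (fun _ => L) fun _ => hL)
  let g : U i →ₗ[ℚ] U (i + (k + 1 : ℕ)) :=
    (Algebra.lsmul ℚ ℚ W (∏ p, M p)).restrict (hmap M hM)
  have hf : Function.Injective f := by
    rw [← LinearMap.ker_eq_bot, LinearMap.ker_eq_bot']
    intro x hx
    have h1 : (∏ _p : Fin (k + 1), L) • (x : W) = 0 := congrArg Subtype.val hx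
    rw [Fin.prod_const] at h1
    exact Subtype.ext (hinj x x.2 h1)
  have hg : Function.Surjective g := by
    rintro ⟨w, hw⟩
    obtain ⟨y, hy, hyw⟩ := surj_of_small hU hc hL hM hw
    exact ⟨⟨y, hy⟩, Subtype.ext hyw⟩
  have h1 := LinearMap.finrank_le_finrank_of_injective hf
  have h2 := LinearMap.finrank_le_finrank_of_surjective hg
  have h3 := (LinearMap.injective_iff_surjective_of_finrank_eq_finrank (f := g)
    (le_antisymm h1 h2)).2 hg
  have h4 : g ⟨x, hx⟩ = 0 := Subtype.ext h0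
  have h5 := h3 (h4.trans (map_zero g).symm)
  exact congrArg Subtype.val h5

end Small

section Middle

variable {c : ℤ} {Sym : Set C} {U : ℤ → Submodule ℚ W} (hU : IsLefschetz c Sym U)
  {ht : W →ₗ[ℚ] W →ₗ[ℚ] ℝ}
  (ht_adj : ∀ (c : C) (x y : W), ht (c • x) y = ht x (c • y))
  {i : ℤ} {k : ℕ} (hc : 2 * i + k = c) {L : C} (hL : L ∈ Sym) {ε : ℝ}
  (hpos : ∀ x ∈ U i, x ≠ 0 → L ^ (k + 1) • x = 0 → 0 < ε * ht x (L ^ k • x))

include hU ht_adj hc hL hpos

/-- The radical of the height pairing has no new classes in codimension `i`. -/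
lemma radical_eq {x : W} (hx : x ∈ U i) (hr : ∀ w ∈ U (i + k), ht x w = 0) :
    ∃ y ∈ U (i - 1), (∀ w ∈ U (i + k + 1), ht y w = 0) ∧ x = L • y := by
  obtain ⟨x', hx', hx'0, y, hy, rfl⟩ := hU.decomp hc hL hx
  have h1 : ∀ w ∈ U (i + k), ht x' w = 0 := by
    intro w hw
    obtain ⟨w', hw', rfl⟩ := hU.surj hc (M := fun _ => L) (fun _ => hL) hw
    rw [Fin.prod_const]
    obtain ⟨w0, hw0, hw00, y', hy', rfl⟩ := hU.decomp hc hL hw'
    have e1 : ht x' (L ^ k • (L • y')) = 0 := by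
      rw [← mul_smul, ← pow_succ, ← ht_adj, hx'0, map_zero, LinearMap.zero_apply]
    have e2 : ht (L • y) (L ^ k • w0) = 0 := by
      rw [ht_adj, ← mul_smul, ← pow_succ', hw00, map_zero]
    have e3 := hr (L ^ k • w0) (hU.pow_mem hL hw0 k)
    rw [map_add, LinearMap.add_apply, e2, add_zero] at e3
    rw [smul_add, map_add, e1, e3, add_zero]
  have h2 : x' = 0 := by
    by_contra h
    have h3 := hpos x' hx' h hx'0
    rw [h1 _ (hU.pow_mem hL hx' k), mul_zero] at h3
    exact lt_irrefl _ h3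
  subst h2
  refine ⟨y, hy, fun w hw => ?_, by rw [zero_add]⟩
  have e : i + (k : ℤ) + 1 = (i - 1) + ((k + 2 : ℕ) : ℤ) := by push_cast; ring
  rw [e] at hw
  obtain ⟨v, hv, rfl⟩ := hU.surj (by push_cast; linarith) (M := fun _ => L) (fun _ => hL) hw
  rw [Fin.prod_const, pow_succ', mul_smul, ← ht_adj]
  have := hr (L ^ (k + 1) • v) (by
    have := hU.pow_mem hL hv (k + 1)
    have e : i - 1 + ((k + 1 : ℕ) : ℤ) = i + k := by push_cast; ring
    rwa [e] at this)
  rwa [zero_add] at this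

/-- A class in the radical which is killed by a product of `k + 1` ample classes is zero. -/
lemma radical_prim {M : Fin (k + 1) → C} (hM : ∀ p, M p ∈ Sym) {x : W} (hx : x ∈ U i)
    (hr : ∀ w ∈ U (i + k), ht x w = 0) (h0 : (∏ p, M p) • x = 0) : x = 0 := by
  have := hU.fin i
  have := hU.fin (i - 1)
  let R : Submodule ℚ W :=
    { carrier := {x | x ∈ U i ∧ ∀ w ∈ U (i + k), ht x w = 0}
      zero_mem' := ⟨Submodule.zero_mem _, fun w _ => by simp⟩
      add_mem' := fun {a b} ha hb => ⟨Submodule.add_mem _ ha.1 hb.1, fun w hw => by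
        rw [map_add, LinearMap.add_apply, ha.2 w hw, hb.2 w hw, add_zero]⟩
      smul_mem' := fun c a ha => ⟨Submodule.smul_mem _ c ha.1, fun w hw => by
        rw [map_smul, LinearMap.smul_apply, ha.2 w hw, smul_zero]⟩ }
  let R' : Submodule ℚ W :=
    { carrier := {x | x ∈ U (i - 1) ∧ ∀ w ∈ U (i + k + 1), ht x w = 0}
      zero_mem' := ⟨Submodule.zero_mem _, fun w _ => by simp⟩
      add_mem' := fun {a b} ha hb => ⟨Submodule.add_mem _ ha.1 hb.1, fun w hw => by
        rw [map_add, LinearMap.add_apply, ha.2 w hw, hb.2 w hw, add_zero]⟩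
      smul_mem' := fun c a ha => ⟨Submodule.smul_mem _ c ha.1, fun w hw => by
        rw [map_smul, LinearMap.smul_apply, ha.2 w hw, smul_zero]⟩ }
  have hRf : FiniteDimensional ℚ R := Submodule.finiteDimensional_of_le
    (show R ≤ U i from fun x hx => hx.1)
  have hRf' : FiniteDimensional ℚ R' := Submodule.finiteDimensional_of_le
    (show R' ≤ U (i - 1) from fun x hx => hx.1)
  have hmap : ∀ N ∈ Sym, ∀ y ∈ R', Algebra.lsmul ℚ ℚ W N y ∈ R := by
    intro N hN y hy
    refine ⟨?_, fun w hw => ?_⟩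
    · have := hU.mul N hN _ y hy.1
      rwa [sub_add_cancel] at this
    · rw [Algebra.lsmul_coe, ht_adj]
      exact hy.2 _ (hU.mul N hN _ w hw)
  have hinj : ∀ N ∈ Sym, ∀ y ∈ R', (∏ p, M p) • (N • y) = 0 → y = 0 := by
    intro N hN y hy hN0
    refine hU.inj (j := i - 1) (m := k + 2) (by push_cast; linarith)
      (M := Fin.cons N M) ?_ hy.1 ?_
    · intro p
      refine Fin.cases ?_ (fun q => ?_) p
      · rw [Fin.cons_zero]; exact hN
      · rw [Fin.cons_succ]; exact hM q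
    · rw [Fin.prod_univ_succ]
      simp only [Fin.cons_zero, Fin.cons_succ]
      rw [mul_comm, mul_smul]
      exact hN0
  let f : R' →ₗ[ℚ] R := (Algebra.lsmul ℚ ℚ W L).restrict (hmap L hL)
  let g : R' →ₗ[ℚ] R := (Algebra.lsmul ℚ ℚ W (M 0)).restrict (hmap (M 0) (hM 0))
  have hf : Function.Surjective f := by
    rintro ⟨z, hz⟩
    obtain ⟨y, hy, hyr, hyz⟩ := radical_eq hU ht_adj hc hL hpos hz.1 hz.2
    exact ⟨⟨y, hy, hyr⟩, Subtype.ext hyz.symm⟩
  have hg : Function.Injective g := by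
    rw [← LinearMap.ker_eq_bot, LinearMap.ker_eq_bot']
    intro y hy
    have h1 : M 0 • (y : W) = 0 := congrArg Subtype.val hy
    refine Subtype.ext (hinj (M 0) (hM 0) y y.2 ?_)
    rw [h1, smul_zero]
  have h1 := LinearMap.finrank_le_finrank_of_surjective hf
  have h2 := LinearMap.finrank_le_finrank_of_injective hg
  have h3 := (LinearMap.injective_iff_surjective_of_finrank_eq_finrank (f := g)
    (le_antisymm h2 h1)).1 hg
  obtain ⟨⟨y, hy⟩, hyx⟩ := h3 ⟨x, hx, hr⟩
  have h4 : M 0 • y = x := congrArg Subtype.val hyx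
  rw [← h4] at h0
  have h5 := hinj (M 0) (hM 0) y hy h0
  rw [← h4, h5, smul_zero]

end Middle

end Pool.Agent.H844.Hgt
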