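import Pool.Agent.H844.Hgt.Main

/-!
# The path of real ample classes
-/

open scoped TensorProduct
open Set

set_option autoImplicit false

namespace Pool.Agent.H844.Hgt

universe u v

variable {C : Type u} {W : Type v} [CommRing C] [Algebra ℚ C] [AddCommGroup W] [Module ℚ W]
  [Module C W] [IsScalarTower ℚ C W]

/-- The segment from `L` to `N`. -/
noncomputable def seg (L N : C) (t : ℝ) : ℝ ⊗[ℚ] C := (1 - t) ⊗ₜ[ℚ] L + t ⊗ₜ[ℚ] N

lemma seg_zero (L N : C) : seg L N 0 = 1 ⊗ₜ[ℚ] L := by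
  rw [seg, sub_zero, TensorProduct.zero_tmul, add_zero]

lemma seg_one (L N : C) : seg L N 1 = 1 ⊗ₜ[ℚ] N := by
  rw [seg, sub_self, TensorProduct.zero_tmul, zero_add]

lemma seg_ample {Sym : Set C} {L N : C} (hL : L ∈ Sym) (hN : N ∈ Sym) {t : ℝ}
    (ht : t ∈ Icc (0 : ℝ) 1) : RealAmple Sym (seg L N t) := by
  rcases ht.1.eq_or_lt with h | h
  · rw [← h, seg_zero]
    exact RealAmple.of one_pos hL
  rcases ht.2.eq_or_lt with h' | h'
  · rw [h', seg_one]
    exact RealAmple.of one_pos hN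
  · exact RealAmple.add (RealAmple.of (by linarith) hL) (RealAmple.of h hN)

lemma hard_mid {c : ℤ} {Sym : Set C} {U : ℤ → Submodule ℚ W} (hU : IsLefschetz c Sym U)
    {i : ℤ} {k : ℕ} (hc : 2 * i + k = c) {L : C} (hL : L ∈ Sym) {M : Fin k → C}
    (hM : ∀ p, M p ∈ Sym) {t : ℝ} (ht : t ∈ Icc (0 : ℝ) 1) :
    BijOn (act (W := W) (∏ p, seg L (M p) t)) ((U i).baseChange ℝ) ((U (i + k)).baseChange ℝ) :=
  hU.hard i k hc _ fun p => seg_ample hL (hM p) ht

lemma hard_big {c : ℤ} {Sym : Set C} {U : ℤ → Submodule ℚ W} (hU : IsLefschetz c Sym U)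
    {i : ℤ} {k : ℕ} (hc : 2 * i + k = c) {L N : C} (hL : L ∈ Sym) (hN : N ∈ Sym) {M : Fin k → C}
    (hM : ∀ p, M p ∈ Sym) {t : ℝ} (ht : t ∈ Icc (0 : ℝ) 1) :
    BijOn (act (W := W) (seg L N t * (∏ p, seg L (M p) t) * seg L N t))
      ((U (i - 1)).baseChange ℝ) ((U (i + k + 1)).baseChange ℝ) := by
  have hM' : ∀ p, (Fin.cons N (Fin.cons N M : Fin (k + 1) → C) : Fin (k + 2) → C) p ∈ Sym := by
    intro p
    refine Fin.cases ?_ (fun q => ?_) p
    · rw [Fin.cons_zero]; exact hN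
    · rw [Fin.cons_succ]
      refine Fin.cases ?_ (fun q' => ?_) q
      · rw [Fin.cons_zero]; exact hN
      · rw [Fin.cons_succ]; exact hM q'
  have h := hU.hard (i - 1) (k + 2) (by push_cast; linarith)
    (fun p => seg L ((Fin.cons N (Fin.cons N M : Fin (k + 1) → C) : Fin (k + 2) → C) p) t)
    fun p => seg_ample hL (hM' p) ht
  have e : i - 1 + ((k + 2 : ℕ) : ℤ) = i + k + 1 := by push_cast; ring
  rw [e] at h
  have e2 : (∏ p, seg L ((Fin.cons N (Fin.cons N M : Fin (k + 1) → C) : Fin (k + 2) → C) p) t) =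
      seg L N t * (∏ p, seg L (M p) t) * seg L N t := by
    rw [Fin.prod_univ_succ, Fin.prod_univ_succ]
    simp only [Fin.cons_zero, Fin.cons_succ]
    ring
  rw [e2] at h
  exact h

/-- The primitive classes of a Lefschetz space. -/
def prim (U : ℤ → Submodule ℚ W) (i : ℤ) (k : ℕ) (L : C) : Submodule ℚ W :=
  U i ⊓ LinearMap.ker (Algebra.lsmul ℚ ℚ W (L ^ (k + 1)))

lemma real_decomp {c : ℤ} {Sym : Set C} {U : ℤ → Submodule ℚ W} (hU : IsLefschetz c Sym U)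
    {i : ℤ} {k : ℕ} (hc : 2 * i + k = c) {L : C} (hL : L ∈ Sym) {z : ℝ ⊗[ℚ] W}
    (hz : z ∈ (U i).baseChange ℝ) :
    ∃ p ∈ (prim U i k L).baseChange ℝ, ∃ y ∈ (U (i - 1)).baseChange ℝ,
      z = p + act (W := W) (1 ⊗ₜ[ℚ] L) y := by
  rw [Submodule.baseChange_eq_span] at hz
  induction hz using Submodule.span_induction with
  | mem x hx =>
    obtain ⟨w, hw, rfl⟩ := hx
    obtain ⟨u', hu', hu0, y, hy, rfl⟩ := hU.decomp hc hL hw
    refine ⟨1 ⊗ₜ[ℚ] u', Submodule.tmul_mem_baseChange_of_mem _ ⟨hu', hu0⟩, 1 ⊗ₜ[ℚ] y,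
      Submodule.tmul_mem_baseChange_of_mem _ hy, ?_⟩
    rw [act_one, TensorProduct.mk_apply, TensorProduct.tmul_add]
  | zero => exact ⟨0, Submodule.zero_mem _, 0, Submodule.zero_mem _, by simp⟩
  | add a b _ _ ha hb =>
    obtain ⟨p, hp, y, hy, rfl⟩ := ha
    obtain ⟨q, hq, x, hx, rfl⟩ := hb
    refine ⟨p + q, Submodule.add_mem _ hp hq, y + x, Submodule.add_mem _ hy hx, ?_⟩
    rw [map_add]; abel
  | smul r a _ ha =>
    obtain ⟨p, hp, y, hy, rfl⟩ := ha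
    refine ⟨r • p, Submodule.smul_mem _ r hp, r • y, Submodule.smul_mem _ r hy, ?_⟩
    rw [map_smul, smul_add]

lemma prim_real {U : ℤ → Submodule ℚ W} {i : ℤ} {k : ℕ} {L : C} {p : ℝ ⊗[ℚ] W}
    (hp : p ∈ (prim U i k L).baseChange ℝ) :
    act (W := W) (1 ⊗ₜ[ℚ] L) (act (W := W) (1 ⊗ₜ[ℚ] (L ^ k)) p) = 0 := by
  rw [Submodule.baseChange_eq_span] at hp
  induction hp using Submodule.span_induction with
  | mem x hx =>
    obtain ⟨w, hw, rfl⟩ := hx
    have h1 : L ^ (k + 1) • w = 0 := hw.2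
    rw [TensorProduct.mk_apply, act_one, act_one, ← mul_smul, ← pow_succ', h1,
      TensorProduct.tmul_zero]
  | zero => rw [map_zero, map_zero]
  | add a b _ _ ha hb => rw [map_add, map_add, ha, hb, add_zero]
  | smul r a _ ha => rw [map_smul, map_smul, ha, smul_zero]

section Semi

variable {c : ℤ} {Sym : Set C} {U : ℤ → Submodule ℚ W} (hU : IsLefschetz c Sym U)
  {ht : W →ₗ[ℚ] W →ₗ[ℚ] ℝ}
  (ht_adj : ∀ (c : C) (x y : W), ht (c • x) y = ht x (c • y))
  {i : ℤ} {k : ℕ} (hc : 2 * i + k = c) {L : C} (hL : L ∈ Sym) {ε : ℝ}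
  (hpos : ∀ x ∈ U i, x ≠ 0 → L ^ (k + 1) • x = 0 → 0 < ε * ht x (L ^ k • x))

include hU ht_adj hc hL hpos

lemma semi_start {z : ℝ ⊗[ℚ] W} (hz : z ∈ (U i).baseChange ℝ)
    (hzp : ∀ y ∈ (U (i - 1)).baseChange ℝ,
      hR ht (act (W := W) (1 ⊗ₜ[ℚ] L) y) (act (W := W) (1 ⊗ₜ[ℚ] (L ^ k)) z) = 0) :
    0 ≤ ε * hR ht z (act (W := W) (1 ⊗ₜ[ℚ] (L ^ k)) z) := by
  have hfin := hU.fin i
  have hQf : FiniteDimensional ℚ (prim U i k L) := Submodule.finiteDimensional_of_le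
    (show prim U i k L ≤ U i from inf_le_left)
  obtain ⟨p, hp, y, hy, rfl⟩ := real_decomp hU hc hL hz
  have h1 := hzp y hy
  have h2 : hR ht p (act (W := W) (1 ⊗ₜ[ℚ] (L ^ k)) (act (W := W) (1 ⊗ₜ[ℚ] L) y)) = 0 := by
    rw [← hR_adj ht_adj, ← hR_adj ht_adj, prim_real hp, map_zero, LinearMap.zero_apply]
  have h3 : hR ht (p + act (W := W) (1 ⊗ₜ[ℚ] L) y)
      (act (W := W) (1 ⊗ₜ[ℚ] (L ^ k)) (p + act (W := W) (1 ⊗ₜ[ℚ] L) y)) =
      hR ht p (act (W := W) (1 ⊗ₜ[ℚ] (L ^ k)) p) := by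
    rw [map_add (hR ht), LinearMap.add_apply, h1, add_zero, map_add, map_add, h2, add_zero]
  rw [h3]
  have h4 := semi_of_rat (P := prim U i k L)
    (ε • (hR ht).compl₂ (act (W := W) (1 ⊗ₜ[ℚ] (L ^ k)))) (fun x hx => ?_) hp
  · simpa using h4
  · rw [LinearMap.smul_apply, LinearMap.smul_apply, LinearMap.compl₂_apply, act_one, hR_tmul,
      one_mul, one_mul, smul_eq_mul]
    by_cases hx0 : x = 0
    · rw [hx0]; simp
    · exact (hpos x hx.1 hx0 hx.2).le

/-- **The Hodge index property for one class implies the mixed property for all products.** -/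
theorem mixed_of_index (hs : ∀ x y, ht x y = ht y x) (hε : ε ≠ 0)
    {M : Fin k → C} (hM : ∀ p, M p ∈ Sym) {N : C} (hN : N ∈ Sym) {x : W} (hx : x ∈ U i)
    (hx0 : x ≠ 0) (h0 : (N * ∏ p, M p) • x = 0) : 0 < ε * ht x ((∏ p, M p) • x) := by
  have hfin := hU.fin i
  have hfin' := hU.fin (i - 1)
  by_cases hr : ∀ w ∈ U (i + k), ht x w = 0
  · refine absurd (radical_prim hU ht_adj hc hL hpos (M := Fin.cons N M) ?_ hx hr ?_) hx0
    · intro p
      refine Fin.cases ?_ (fun q => ?_) p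
      · rw [Fin.cons_zero]; exact hN
      · rw [Fin.cons_succ]; exact hM q
    · rw [Fin.prod_univ_succ]
      simp only [Fin.cons_zero, Fin.cons_succ]
      exact h0
  push Not at hr
  obtain ⟨w, hw, hwx⟩ := hr
  have hmain := real_path (ρ := act (C := C) (W := W)) (H := hR ht) (hR_symm hs) (hR_adj ht_adj)
    (X := (U i).baseChange ℝ) (X' := (U (i + k)).baseChange ℝ) (Y := (U (i - 1)).baseChange ℝ)
    (Y' := (U (i + k + 1)).baseChange ℝ) (P := fun t => ∏ p, seg L (M p) t) (E := seg L N)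
    (fun φ x => cont_prod Finset.univ (fun _ => L) M x φ)
    (fun φ x => cont_lin L N φ (fun _ => x) fun _ => continuous_const)
    (fun t ht x hx => (hard_mid hU hc hL hM ht).mapsTo hx)
    (fun t ht w hw => (hard_mid hU hc hL hM ht).surjOn hw)
    (fun t ht y hy => by
      have := hU.real_mul (seg_ample hL hN ht) hy
      rwa [sub_add_cancel] at this)
    (fun t ht w hw => hU.real_mul (seg_ample hL hN ht) hw)
    (fun t ht w hw => (hard_big hU hc hL hN hM ht).surjOn hw) hε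
    (fun z hz hzp => ?_) (Submodule.tmul_mem_baseChange_of_mem (1 : ℝ) hx) (fun y hy => ?_)
    ⟨1 ⊗ₜ[ℚ] w, Submodule.tmul_mem_baseChange_of_mem (1 : ℝ) hw, ?_⟩
  · simp only [seg_one] at hmain
    rw [prod_one_tmul, act_one, hR_tmul, one_mul, one_mul] at hmain
    exact hmain
  · simp only [seg_zero] at hzp ⊢
    rw [prod_one_tmul, Fin.prod_const] at hzp ⊢
    exact semi_start hU ht_adj hc hL hpos hz hzp
  · simp only [seg_one]
    rw [prod_one_tmul, act_one, hR_adj ht_adj, act_one, ← mul_smul, h0, TensorProduct.tmul_zero,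
      map_zero]
  · rw [hR_tmul, one_mul, one_mul]; exact hwx

end Semi

end Pool.Agent.H844.Hgt
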