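import Pool.Graph.R_pool_sql_team_seeded_35f281b4.K7.H9.PathA

/-!
# A deformation argument for real forms with a radical
-/

open Matrix Set

set_option autoImplicit false

namespace Pool.Agent.H844.Hgt

open Pool.Agent.K7.H9

section Coords

variable {F V : Type*} [Field F] [AddCommGroup V] [Module F V]

/-- Coordinates on a finite-dimensional space modulo a subspace. -/
lemma exists_coords (X R : Submodule F V) [FiniteDimensional F X] :
    ∃ (r : ℕ) (v : Fin r → V) (c : Fin r → V →ₗ[F] F), (∀ a, v a ∈ X) ∧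
      (∀ a, ∀ x ∈ R, c a x = 0) ∧ (∀ a b, c a (v b) = if a = b then 1 else 0) ∧
      ∀ x ∈ X, x - ∑ a, c a x • v a ∈ R := by
  classical
  let Xq := X.map R.mkQ
  have : FiniteDimensional F Xq := inferInstance
  let b := Module.finBasis F Xq
  have h1 : ∀ a, ∃ x ∈ X, R.mkQ x = (b a : V ⧸ R) := by
    intro a
    obtain ⟨x, hx, hxa⟩ := (b a).2
    exact ⟨x, hx, hxa⟩
  choose v hv hvb using h1
  have h2 : ∀ a, ∃ g : (V ⧸ R) →ₗ[F] F, g ∘ₗ Xq.subtype = b.coord a := by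
    intro a
    exact LinearMap.exists_extend (b.coord a)
  choose g hg using h2
  refine ⟨Module.finrank F Xq, v, fun a => g a ∘ₗ R.mkQ, hv, ?_, ?_, ?_⟩
  · intro a x hx
    have : R.mkQ x = 0 := by
      rw [Submodule.mkQ_apply, Submodule.Quotient.mk_eq_zero]; exact hx
    rw [LinearMap.comp_apply, this, map_zero]
  · intro a a'
    have h3 := LinearMap.congr_fun (hg a) (b a')
    rw [LinearMap.comp_apply, Submodule.subtype_apply] at h3
    rw [LinearMap.comp_apply, hvb, h3, Module.Basis.coord_apply, Module.Basis.repr_self,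
      Finsupp.single_apply]
    by_cases h : a = a'
    · subst h; simp
    · rw [if_neg h, if_neg (Ne.symm h)]
  · intro x hx
    have h3 : ∀ a, (g a ∘ₗ R.mkQ) x = b.coord a ⟨R.mkQ x, ⟨x, hx, rfl⟩⟩ := by
      intro a
      have h4 := LinearMap.congr_fun (hg a) ⟨R.mkQ x, ⟨x, hx, rfl⟩⟩
      rw [LinearMap.comp_apply, Submodule.subtype_apply] at h4
      rw [LinearMap.comp_apply]
      exact h4
    have h5 : R.mkQ (x - ∑ a, (g a ∘ₗ R.mkQ) x • v a) = 0 := by
      rw [map_sub, map_sum, sub_eq_zero]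
      have h6 := b.sum_repr ⟨R.mkQ x, ⟨x, hx, rfl⟩⟩
      have h7 := congrArg Subtype.val h6
      simp only [Submodule.coe_sum, Submodule.coe_smul] at h7
      rw [← h7]
      apply Finset.sum_congr rfl
      intro a _
      rw [h3, map_smul, hvb, Module.Basis.coord_apply]
    rw [Submodule.mkQ_apply, Submodule.Quotient.mk_eq_zero] at h5
    exact h5

end Coords

section Path

variable {A V : Type*} [CommRing A] [Algebra ℝ A] [AddCommGroup V] [Module ℝ V]
  {ρ : A →ₐ[ℝ] Module.End ℝ V} {H : V →ₗ[ℝ] V →ₗ[ℝ] ℝ}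

/-- **The deformation argument.** -/
theorem real_path (hs : ∀ x y, H x y = H y x) (ha : ∀ a x y, H (ρ a x) y = H x (ρ a y))
    {X X' Y Y' : Submodule ℝ V} [FiniteDimensional ℝ X] [FiniteDimensional ℝ Y] {P E : ℝ → A}
    (hPc : ∀ (φ : V →ₗ[ℝ] ℝ) (x : V), Continuous fun t => φ (ρ (P t) x))
    (hEc : ∀ (φ : V →ₗ[ℝ] ℝ) (x : V), Continuous fun t => φ (ρ (E t) x))
    (h1 : ∀ t ∈ Icc (0 : ℝ) 1, ∀ x ∈ X, ρ (P t) x ∈ X')
    (h2 : ∀ t ∈ Icc (0 : ℝ) 1, ∀ w ∈ X', ∃ x ∈ X, ρ (P t) x = w)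
    (h3 : ∀ t ∈ Icc (0 : ℝ) 1, ∀ y ∈ Y, ρ (E t) y ∈ X)
    (h4 : ∀ t ∈ Icc (0 : ℝ) 1, ∀ w ∈ X', ρ (E t) w ∈ Y')
    (h5 : ∀ t ∈ Icc (0 : ℝ) 1, ∀ w ∈ Y', ∃ y ∈ Y, ρ (E t * P t * E t) y = w)
    {ε : ℝ} (hε : ε ≠ 0)
    (h0 : ∀ x ∈ X, (∀ y ∈ Y, H (ρ (E 0) y) (ρ (P 0) x) = 0) → 0 ≤ ε * H x (ρ (P 0) x))
    {x : V} (hx : x ∈ X) (hxp : ∀ y ∈ Y, H (ρ (E 1) y) (ρ (P 1) x) = 0)
    (hxr : ∃ w ∈ X', H x w ≠ 0) : 0 < ε * H x (ρ (P 1) x) := by
  classical
  let RX : Submodule ℝ V :=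
    { carrier := {x | x ∈ X ∧ ∀ w ∈ X', H x w = 0}
      zero_mem' := ⟨X.zero_mem, fun w _ => by simp⟩
      add_mem' := fun {a b} ha hb => ⟨X.add_mem ha.1 hb.1, fun w hw => by
        rw [map_add, LinearMap.add_apply, ha.2 w hw, hb.2 w hw, add_zero]⟩
      smul_mem' := fun c a ha => ⟨X.smul_mem c ha.1, fun w hw => by
        rw [map_smul, LinearMap.smul_apply, ha.2 w hw, smul_zero]⟩ }
  let RY : Submodule ℝ V :=
    { carrier := {x | x ∈ Y ∧ ∀ w ∈ Y', H x w = 0}
      zero_mem' := ⟨Y.zero_mem, fun w _ => by simp⟩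
      add_mem' := fun {a b} ha hb => ⟨Y.add_mem ha.1 hb.1, fun w hw => by
        rw [map_add, LinearMap.add_apply, ha.2 w hw, hb.2 w hw, add_zero]⟩
      smul_mem' := fun c a ha => ⟨Y.smul_mem c ha.1, fun w hw => by
        rw [map_smul, LinearMap.smul_apply, ha.2 w hw, smul_zero]⟩ }
  obtain ⟨r, v, c, hvX, hcR, hcv, hcX⟩ := exists_coords X RX
  obtain ⟨s, y, d, hyY, hdR, hdy, hdY⟩ := exists_coords Y RY
  let B : ℝ → Matrix (Fin r) (Fin r) ℝ := fun t => Matrix.of fun a b => H (v a) (ρ (P t) (v b))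
  let N : ℝ → Matrix (Fin r) (Fin s) ℝ := fun t => Matrix.of fun a b => c a (ρ (E t) (y b))
  let vec : (Fin r → ℝ) → V := fun z => ∑ a, z a • v a
  have hvec : ∀ z, vec z ∈ X := fun z => X.sum_mem fun a _ => X.smul_mem _ (hvX a)
  -- the matrix B
  have hBmul : ∀ t z a, (B t *ᵥ z) a = H (v a) (ρ (P t) (vec z)) := by
    intro t z a
    simp only [B, vec, Matrix.mulVec, dotProduct, Matrix.of_apply, map_sum, map_smul, smul_eq_mul]
    exact Finset.sum_congr rfl fun b _ => mul_comm _ _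
  have hquad : ∀ t z, z ⬝ᵥ (B t *ᵥ z) = H (vec z) (ρ (P t) (vec z)) := by
    intro t z
    rw [dotProduct]
    conv_rhs => rw [show vec z = ∑ a, z a • v a from rfl, map_sum, LinearMap.sum_apply]
    refine Finset.sum_congr rfl fun a _ => ?_
    rw [hBmul, map_smul, LinearMap.smul_apply, smul_eq_mul]
  -- replacing a vector of `X` by its coordinates
  have hrep : ∀ x ∈ X, ∀ w ∈ X', H x w = H (vec fun a => c a x) w := by
    intro x hx w hw
    have := (hcX x hx).2 w hw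
    rw [map_sub, LinearMap.sub_apply, sub_eq_zero] at this
    exact this
  have hrepY : ∀ z ∈ Y, ∀ w ∈ Y', H z w = H (∑ b, d b z • y b) w := by
    intro z hz w hw
    have := (hdY z hz).2 w hw
    rw [map_sub, LinearMap.sub_apply, sub_eq_zero] at this
    exact this
  have hflip : ∀ (a a' : A) (x x' : V), H (ρ a x) (ρ a' x') = H x' (ρ a' (ρ a x)) := by
    intro a a' x x'
    rw [← ha, hs]
  have hkerY : ∀ t ∈ Icc (0 : ℝ) 1, ∀ z ∈ X, (∀ b, H (ρ (E t) (y b)) (ρ (P t) z) = 0) →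
      ∀ q ∈ Y, H (ρ (E t) q) (ρ (P t) z) = 0 := by
    intro t ht z hz hb q hq
    rw [ha, hrepY q hq _ (h4 t ht _ (h1 t ht _ hz)), map_sum, LinearMap.sum_apply]
    refine Finset.sum_eq_zero fun b _ => ?_
    rw [map_smul, LinearMap.smul_apply, ← ha, hb, smul_zero]
  have hNB : ∀ t ∈ Icc (0 : ℝ) 1, ∀ z b, ((N t)ᵀ *ᵥ (B t *ᵥ z)) b =
      H (ρ (E t) (y b)) (ρ (P t) (vec z)) := by
    intro t ht z b
    rw [hrep _ (h3 t ht _ (hyY b)) _ (h1 t ht _ (hvec z))]
    simp only [Matrix.mulVec, Matrix.transpose_apply]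
    rw [dotProduct]
    conv_rhs => rw [show (vec fun a => c a (ρ (E t) (y b))) =
      ∑ a, c a (ρ (E t) (y b)) • v a from rfl, map_sum, LinearMap.sum_apply]
    refine Finset.sum_congr rfl fun a _ => ?_
    rw [map_smul, LinearMap.smul_apply, smul_eq_mul]
    congr 1
    exact hBmul t z a
  have hsym : ∀ t, (B t)ᵀ = B t := by
    intro t
    ext a b
    simp only [B, Matrix.transpose_apply, Matrix.of_apply]
    rw [← ha, hs]
  have hdet : ∀ t ∈ Icc (0 : ℝ) 1, (B t).det ≠ 0 := by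
    intro t ht h0
    obtain ⟨z, hz0, hz⟩ := Matrix.exists_mulVec_eq_zero_iff.2 h0
    apply hz0
    have h6 : vec z ∈ RX := by
      refine ⟨hvec z, fun w hw => ?_⟩
      obtain ⟨u, hu, rfl⟩ := h2 t ht w hw
      rw [← ha, hs, hrep u hu _ (h1 t ht _ (hvec z)),
        show (vec fun a => c a u) = ∑ a, c a u • v a from rfl, map_sum, LinearMap.sum_apply]
      refine Finset.sum_eq_zero fun a _ => ?_
      rw [map_smul, LinearMap.smul_apply, ← hBmul, hz, Pi.zero_apply, smul_zero]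
    funext a
    have h7 := hcR a _ h6
    rw [show vec z = ∑ a, z a • v a from rfl, map_sum] at h7
    simp only [map_smul, hcv, smul_eq_mul, mul_ite, mul_one, mul_zero] at h7
    rw [Finset.sum_ite_eq Finset.univ a z] at h7
    simpa using h7
  have hvecN : ∀ t ∈ Icc (0 : ℝ) 1, ∀ z : Fin s → ℝ, ∀ w ∈ X',
      H (vec (N t *ᵥ z)) w = H (ρ (E t) (∑ b, z b • y b)) w := by
    intro t ht z w hw
    have hm : ∑ b, z b • y b ∈ Y := Y.sum_mem fun b _ => Y.smul_mem _ (hyY b)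
    rw [hrep _ (h3 t ht _ hm) w hw]
    congr 2
    congr 1
    funext a
    simp only [N, Matrix.mulVec, dotProduct, Matrix.of_apply, map_sum, map_smul, smul_eq_mul]
    exact Finset.sum_congr rfl fun b _ => mul_comm _ _
  have hdet' : ∀ t ∈ Icc (0 : ℝ) 1, ((N t)ᵀ * B t * N t).det ≠ 0 := by
    intro t ht h0
    obtain ⟨z, hz0, hz⟩ := Matrix.exists_mulVec_eq_zero_iff.2 h0
    apply hz0
    set u := ∑ b, z b • y b with hu
    have huY : u ∈ Y := Y.sum_mem fun b _ => Y.smul_mem _ (hyY b)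
    have hz' : ∀ b, H (y b) (ρ (E t) (ρ (P t) (ρ (E t) u))) = 0 := by
      intro b
      have h8 := congrFun hz b
      rw [← Matrix.mulVec_mulVec, ← Matrix.mulVec_mulVec, hNB t ht, Pi.zero_apply, hflip,
        hvecN t ht z _ (h1 t ht _ (h3 t ht _ (hyY b))), ← hu, ← hflip, ha] at h8
      exact h8
    have huE : ρ (E t) (ρ (P t) (ρ (E t) u)) ∈ Y' := h4 t ht _ (h1 t ht _ (h3 t ht _ huY))
    have h6 : u ∈ RY := by
      refine ⟨huY, fun w hw => ?_⟩
      obtain ⟨q, hq, rfl⟩ := h5 t ht w hw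
      rw [← ha, hs, map_mul, map_mul, Module.End.mul_apply, Module.End.mul_apply,
        hrepY q hq _ huE, map_sum, LinearMap.sum_apply]
      refine Finset.sum_eq_zero fun b _ => ?_
      rw [map_smul, LinearMap.smul_apply, hz', smul_zero]
    funext a
    have h7 := hdR a _ h6
    rw [hu, map_sum] at h7
    simp only [map_smul, hdy, smul_eq_mul, mul_ite, mul_one, mul_zero] at h7
    rw [Finset.sum_ite_eq Finset.univ a z] at h7
    simpa using h7
  have hBc : Continuous B := by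
    refine continuous_matrix fun a b => ?_
    exact hPc (H (v a)) (v b)
  have hNc : Continuous N := by
    refine continuous_matrix fun a b => ?_
    exact hEc (c a) (y b)
  have hstart : PosOn (B 0) (N 0) ε := by
    refine posOn_of_semi hε (hsym 0) (hdet 0 (by simp)) (hdet' 0 (by simp)) fun z => ?_
    rw [hquad]
    refine h0 _ (hvec _) (hkerY 0 (by simp) _ (hvec _) fun b => ?_)
    rw [← hNB 0 (by simp), prj_ker, Pi.zero_apply]
  have hend := path hBc hNc hsym hdet hdet' hε hstart 1 (by simp)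
  have h9 := hend (fun a => c a x) (by
    funext b
    rw [hNB 1 (by simp), Pi.zero_apply, hflip,
      ← hrep x hx _ (h1 1 (by simp) _ (h3 1 (by simp) _ (hyY b))), ← hflip]
    exact hxp _ (hyY b)) (by
    intro h10
    obtain ⟨w, hw, hne⟩ := hxr
    apply hne
    rw [hrep x hx w hw, h10]
    simp [vec])
  rw [hquad] at h9
  have h11 : H x (ρ (P 1) x) = H (vec fun a => c a x) (ρ (P 1) (vec fun a => c a x)) := by
    rw [hrep x hx _ (h1 1 (by simp) x hx), ← ha, hs,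
      hrep x hx _ (h1 1 (by simp) _ (hvec _))]
  rw [h11]
  exact h9

end Path

end Pool.Agent.H844.Hgt
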