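import Mathlib

/-!
# Cycles homologous to zero on an abelian variety: definitions

`C` is the Chow ring (with rational coefficients) of an abelian variety `A` of dimension `n` over a
number field, `W` the `C`-module of the cycles on `A` homologous to zero, `part i s` the Beauville
component `CH^i_(s)(A)^0` (the classes `x` of codimension `i` with `[m]^* x = m ^ (2 i - s) x`), `Sym`
the set of the classes of the symmetric ample line bundles, `Anti` the set `CH^1_(1)(A)` of the
divisor classes algebraically equivalent to zero, and `ht` the height pairing.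
-/

open scoped TensorProduct

set_option autoImplicit false

namespace Pool.Agent.H844.Hgt.St

universe u v

section Defs

variable {C : Type u} {W : Type v} [CommRing C] [Algebra ℚ C] [AddCommGroup W] [Module ℚ W]
  [Module C W] [IsScalarTower ℚ C W]

/-- Graded spaces of cycles. -/
abbrev Gr (W : Type v) [AddCommGroup W] [Module ℚ W] : Type v := ℤ → Submodule ℚ W

/-- Pairings with real values. -/
abbrev Pairing (W : Type v) [AddCommGroup W] [Module ℚ W] : Type v := W →ₗ[ℚ] W →ₗ[ℚ] ℝ

/-- The value `(x, y)` of a pairing. -/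
noncomputable def val (ht : Pairing W) (x y : W) : ℝ := ht x y

/-- The operators on `ℝ ⊗ W`. -/
abbrev Op (W : Type v) [AddCommGroup W] [Module ℚ W] : Type v := Module.End ℝ (ℝ ⊗[ℚ] W)

/-- The multiplication `x ↦ c x` by an element `c` of `C`. -/
def mulC (W : Type v) [AddCommGroup W] [Module ℚ W] [Module C W] [IsScalarTower ℚ C W] (c : C) :
    W →ₗ[ℚ] W := Algebra.lsmul ℚ ℚ W c

/-- The multiplication by `a c` on `ℝ ⊗ W`, for a real number `a` and an element `c` of `C`. -/
noncomputable def mulR (W : Type v) [AddCommGroup W] [Module ℚ W] [Module C W]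
    [IsScalarTower ℚ C W] (a : ℝ) (c : C) : Op W := a • (mulC W c).baseChange ℝ

/-- The multiplications by the real ample classes `∑ a_j L_j`, `a_j > 0` real and `L_j ∈ Sym`. -/
inductive RealAmple (Sym : Set C) : Op W → Prop
  | of {a : ℝ} {L : C} (ha : 0 < a) (hL : L ∈ Sym) : RealAmple Sym (mulR W a L)
  | add {δ δ' : Op W} (h : RealAmple Sym δ) (h' : RealAmple Sym δ') : RealAmple Sym (δ + δ')

/-- The product of operators. -/
noncomputable def prodOp {m : ℕ} (δ : Fin m → Op W) : Op W := (List.ofFn δ).prod

/-- The real span of a space of cycles. -/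
noncomputable def realPts (P : Submodule ℚ W) : Set (ℝ ⊗[ℚ] W) := P.baseChange ℝ

/-- The mixed hard Lefschetz theorem with centre `c / 2`: every product of `c - 2 j` real ample
classes maps `ℝ ⊗ U j` bijectively onto `ℝ ⊗ U (c - j)`. -/
def Hard (c : ℤ) (Sym : Set C) (U : Gr W) : Prop :=
  ∀ (j : ℤ) (m : ℕ), 2 * j + m = c → ∀ δ : Fin m → Op W, (∀ p, RealAmple Sym (δ p)) →
    Set.BijOn (prodOp δ) (realPts (U j)) (realPts (U (j + m)))

/-- A graded space of cycles, finite-dimensional in each codimension and stable under the
intersection with the classes in `Sym`, with the mixed hard Lefschetz theorem. -/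
structure IsLefschetz (c : ℤ) (Sym : Set C) (U : Gr W) : Prop where
  fin : ∀ j, FiniteDimensional ℚ (U j)
  mul : ∀ L ∈ Sym, ∀ j, ∀ x ∈ U j, L • x ∈ U (j + 1)
  hard : Hard c Sym U

/-- The classes of codimension `i` homologous to zero. -/
def Ch0 (part : ℤ → Gr W) (i : ℤ) : Submodule ℚ W := ⨆ s, part i s

/-- The divisor classes in `S` have degree `d` in the Beauville decomposition. -/
def HasDegree (part : ℤ → Gr W) (S : Set C) (d : ℤ) : Prop :=
  ∀ L ∈ S, ∀ i s, ∀ x ∈ part i s, L • x ∈ part (i + 1) (s + d)

/-- Every cycle in `CH^i_(s)` lies in a finite-dimensional graded subspace of `CH_(s)` with the mixed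
hard Lefschetz theorem (the space of the cycles obtained from it by symmetrically distinguished
correspondences). -/
def LocallyLefschetz (n : ℕ) (part : ℤ → Gr W) (Sym : Set C) : Prop :=
  ∀ i s, ∀ x ∈ part i s, ∃ U : Gr W, IsLefschetz (n + s) Sym U ∧ (∀ j, U j ≤ part j s) ∧ x ∈ U i

/-- The pairing is symmetric. -/
def Symm (ht : Pairing W) : Prop := ∀ x y, val ht x y = val ht y x

/-- The projection formula `(c x, y) = (x, c y)`. -/
def Projection (C : Type u) [CommRing C] [Module C W] (ht : Pairing W) : Prop :=
  ∀ (c : C) (x y : W), val ht (c • x) y = val ht x (c • y)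

/-- `CH_(s)` and `CH_(t)` are orthogonal unless `s + t = 2`. -/
def Orthogonal (part : ℤ → Gr W) (ht : Pairing W) : Prop :=
  ∀ i j s t, s + t ≠ 2 → ∀ x ∈ part i s, ∀ y ∈ part j t, val ht x y = 0

/-- The map `T` of `W` is additive, bijective, preserves the codimension and the height pairing, and
`T (L x) = L' T x` (for instance the inverse image under a translation `t`, and `L' = t^* L`). -/
structure IsTranslation (part : ℤ → Gr W) (ht : Pairing W) (L L' : C) (T : W → W) : Prop where
  add : ∀ x y, T (x + y) = T x + T y
  bij : Function.Bijective T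
  codim : ∀ i x, T x ∈ Ch0 part i ↔ x ∈ Ch0 part i
  height : ∀ x y, val ht (T x) (T y) = val ht x y
  mul : ∀ x, T (L • x) = L' • T x

/-- The cycles homologous to zero on an abelian variety of dimension `n`, with the height
pairing `ht` (set `(x, y) = 0` if the codimensions of `x` and `y` do not add up to `n + 1`). -/
structure IsAbelianCycles (n : ℕ) (part : ℤ → Gr W) (Sym Anti : Set C) (ht : Pairing W) :
    Prop where
  /-- there are no cycles of codimension less than `0` or greater than `n` -/
  range : ∀ i s : ℤ, i < 0 ∨ (n : ℤ) < i → part i s = ⊥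
  /-- the sum of the components `CH^i_(s)` is direct -/
  indep : ∀ i, iSupIndep (part i)
  /-- symmetric divisors have degree `0` in the Beauville decomposition -/
  sym : HasDegree part Sym 0
  /-- divisors algebraically equivalent to zero have degree `1` -/
  anti : HasDegree part Anti 1
  /-- finiteness and hard Lefschetz -/
  locally : LocallyLefschetz n part Sym
  symm : Symm ht
  proj : Projection C ht
  orth : Orthogonal part ht
  /-- `0` is algebraically equivalent to zero -/
  zero_mem : (0 : C) ∈ Anti
  /-- for `L` symmetric ample and `a` algebraically equivalent to zero, `L + a` is the inverse image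
  of `L` under the translation by a point of `A(K) ⊗ ℚ` -/
  trans : ∀ L ∈ Sym, ∀ a ∈ Anti, ∃ T : W → W, IsTranslation part ht L (L + a) T

/-- The ample classes: the sums of a symmetric ample class and a class algebraically equivalent to
zero. -/
def Ample (Sym Anti : Set C) : Set C := {L | ∃ S ∈ Sym, ∃ a ∈ Anti, L = S + a}

/-- Beilinson's Hodge index conjecture (question 2) for the codimension `i`, `k = n + 1 - 2 i`, and
the class `L`: `(-1)^i (x, L^k x) > 0` for all `x ≠ 0` in `Ch^i(X)^0` with `L^(k+1) x = 0`. -/
def Index (part : ℤ → Gr W) (ht : Pairing W) (i k : ℕ) (L : C) : Prop :=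
  ∀ x ∈ Ch0 part i, x ≠ 0 → L ^ (k + 1) • x = 0 → 0 < (-1) ^ i * val ht x (L ^ k • x)

/-- The mixed Hodge index statement for the codimension `i`, `k = n + 1 - 2 i`, and the classes
`L_0, …, L_k`: `(-1)^i (x, L_0 ⋯ L_(k-1) x) > 0` for all `x ≠ 0` in `Ch^i(X)^0` with
`L_0 ⋯ L_k x = 0`. -/
def MixedIndex (part : ℤ → Gr W) (ht : Pairing W) (i k : ℕ) (L : Fin (k + 1) → C) : Prop :=
  ∀ x ∈ Ch0 part i, x ≠ 0 → (∏ p, L p) • x = 0 →
    0 < (-1) ^ i * val ht x ((∏ p : Fin k, L p.castSucc) • x)

end Defs

end Pool.Agent.H844.Hgt.St
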