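import Pool.Agent.H844.Hgt.St

/-!
# Classes of abelian varieties: definitions
-/

set_option autoImplicit false

namespace Pool.Agent.H844.Hgt.St

universe u v

/-- An abelian variety over a number field, with its Chow ring `C` (rational coefficients), the
cycles `W` homologous to zero, the Beauville components `part i s` of `W`, the classes `Sym` of the
symmetric ample line bundles, the classes `Anti` algebraically equivalent to zero, the height
pairing `ht`, and the properties of these data which are used. -/
structure AV where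
  C : Type u
  W : Type v
  [ringC : CommRing C]
  [algC : Algebra ℚ C]
  [groupW : AddCommGroup W]
  [modW : Module ℚ W]
  [modCW : Module C W]
  [tower : IsScalarTower ℚ C W]
  /-- the dimension -/
  dim : ℕ
  part : ℤ → Gr W
  Sym : Set C
  Anti : Set C
  ht : Pairing W
  /-- there is a polarization -/
  nonempty : Sym.Nonempty
  isAbelian : IsAbelianCycles dim part Sym Anti ht

attribute [instance] AV.ringC AV.algC AV.groupW AV.modW AV.modCW AV.tower

namespace AV

/-- The ample classes. -/
def ample (A : AV.{u, v}) : Set A.C := Ample A.Sym A.Anti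

/-- Question 1 for `A` and the class `L`: for all `i` and `k = dim A + 1 - 2 i ≥ 0` the multiplication
by `L^k` is a bijection from `Ch^i(A)^0` to `Ch^(i + k)(A)^0`. -/
def Q1 (A : AV.{u, v}) (L : A.C) : Prop :=
  ∀ i k : ℕ, A.dim + 1 = 2 * i + k →
    Set.BijOn (fun x : A.W => L ^ k • x) (Ch0 A.part i) (Ch0 A.part (i + k))

/-- The mixed form of question 1 for `A`: the products of `k` ample classes. -/
def MixedQ1 (A : AV.{u, v}) : Prop :=
  ∀ i k : ℕ, A.dim + 1 = 2 * i + k → ∀ L : Fin k → A.C, (∀ p, L p ∈ A.ample) →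
    Set.BijOn (fun x : A.W => (∏ p, L p) • x) (Ch0 A.part i) (Ch0 A.part (i + k))

/-- Question 2 for `A`, the codimension `i` and the class `L`. -/
def Q2 (A : AV.{u, v}) (i : ℕ) (L : A.C) : Prop :=
  ∀ k, A.dim + 1 = 2 * i + k → Index A.part A.ht i k L

/-- The mixed form of question 2 for `A`, the codimension `i` and all products of ample classes. -/
def MixedQ2 (A : AV.{u, v}) (i : ℕ) : Prop :=
  ∀ k, A.dim + 1 = 2 * i + k → ∀ L : Fin (k + 1) → A.C, (∀ p, L p ∈ A.ample) →
    MixedIndex A.part A.ht i k L

end AV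

/-- `A` is a quotient of the abelian variety `J`: `p : J → A` is surjective, `φ = p^*` on cycles
homologous to zero, `q : J → B` is a homomorphism such that `(p, q) : J → A × B` is an isogeny,
`b = dim B`, and `M = q^* L_B` with a symmetric ample class `L_B` on `B`. -/
structure Pullback (J A : AV.{u, v}) (p : A.C →+* J.C) (φ : A.W → J.W) (b : ℕ) (M : J.C) : Prop where
  dim : J.dim = A.dim + b
  add : ∀ x y, φ (x + y) = φ x + φ y
  inj : Function.Injective φ
  part : ∀ i s, ∀ x ∈ A.part i s, φ x ∈ J.part i s
  mul : ∀ c x, φ (c • x) = p c • φ x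
  /-- `p^* L + q^* L_B` is symmetric and ample -/
  sym : ∀ L ∈ A.Sym, p L + M ∈ J.Sym
  /-- `L_B ^ (b + 1) = 0` -/
  zero : ∀ x, M ^ (b + 1) • φ x = 0
  /-- `(p^* x, p^* y · q^* L_B ^ b) = δ (x, y)`, `δ` the degree of the isogeny times `L_B ^ b` -/
  height : ∃ δ : ℝ, 0 < δ ∧ ∀ x y, val J.ht (φ x) (M ^ b • φ y) = δ * val A.ht x y

/-- `A` is a quotient of `J`. -/
def IsQuotient (J A : AV.{u, v}) : Prop := ∃ p φ b M, Pullback J A p φ b M

end Pool.Agent.H844.Hgt.St
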