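import Pool.Agent.H844.Hgt.Defs
import Pool.Agent.H844.Hgt.Real

/-!
# Real coefficients
-/

open scoped TensorProduct

set_option autoImplicit false

namespace Pool.Agent.H844.Hgt

universe u v

variable {C : Type u} {W : Type v} [CommRing C] [Algebra ℚ C] [AddCommGroup W] [Module ℚ W]
  [Module C W] [IsScalarTower ℚ C W]

lemma act_tmul (a b : ℝ) (c : C) (w : W) :
    act (W := W) (a ⊗ₜ[ℚ] c) (b ⊗ₜ[ℚ] w) = (a * b) ⊗ₜ[ℚ] (c • w) := by
  have h : act (W := W) (a ⊗ₜ[ℚ] c) = algebraMap ℝ (Module.End ℝ (ℝ ⊗[ℚ] W)) a *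
      Module.End.baseChangeHom ℚ ℝ W (Algebra.lsmul ℚ ℚ W c) :=
    Algebra.TensorProduct.lift_tmul _ _ _ _ _
  rw [h, Module.End.mul_apply, Module.algebraMap_end_apply]
  change a • (b ⊗ₜ[ℚ] (c • w)) = _
  rw [TensorProduct.smul_tmul', smul_eq_mul]

/-- The height pairing with real coefficients. -/
noncomputable def hR (ht : W →ₗ[ℚ] W →ₗ[ℚ] ℝ) : (ℝ ⊗[ℚ] W) →ₗ[ℝ] (ℝ ⊗[ℚ] W) →ₗ[ℝ] ℝ :=
  LinearMap.liftBaseChange ℝ
    ((((LinearMap.liftBaseChangeEquiv (R := ℚ) (M := W) (N := ℝ) ℝ).toLinearMap).restrictScalars ℚ)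
      ∘ₗ ht)

lemma hR_tmul (ht : W →ₗ[ℚ] W →ₗ[ℚ] ℝ) (a b : ℝ) (x y : W) :
    hR ht (a ⊗ₜ[ℚ] x) (b ⊗ₜ[ℚ] y) = a * (b * ht x y) := by
  simp [hR]

lemma hR_symm {ht : W →ₗ[ℚ] W →ₗ[ℚ] ℝ} (h : ∀ x y, ht x y = ht y x) (x y : ℝ ⊗[ℚ] W) :
    hR ht x y = hR ht y x := by
  induction x using TensorProduct.induction_on with
  | zero => simp
  | add a b ha hb => rw [map_add, LinearMap.add_apply, ha, hb, map_add]
  | tmul a x =>
    induction y using TensorProduct.induction_on with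
    | zero => simp
    | add c d hc hd => rw [map_add, hc, hd, map_add, LinearMap.add_apply]
    | tmul b y => rw [hR_tmul, hR_tmul, h]; ring

lemma hR_adj {ht : W →ₗ[ℚ] W →ₗ[ℚ] ℝ} (h : ∀ (c : C) (x y : W), ht (c • x) y = ht x (c • y))
    (δ : ℝ ⊗[ℚ] C) (x y : ℝ ⊗[ℚ] W) : hR ht (act δ x) y = hR ht x (act δ y) := by
  induction δ using TensorProduct.induction_on with
  | zero => simp
  | add a b ha hb => simp only [map_add, LinearMap.add_apply, ha, hb]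
  | tmul r c =>
    induction x using TensorProduct.induction_on with
    | zero => simp
    | add a b ha hb => simp only [map_add, LinearMap.add_apply, ha, hb]
    | tmul a x =>
      induction y using TensorProduct.induction_on with
      | zero => simp
      | add c d hc hd => simp only [map_add, hc, hd]
      | tmul b y => rw [act_tmul, act_tmul, hR_tmul, hR_tmul, h]; ring

lemma one_tmul_eq_zero {w : W} (h : (1 : ℝ) ⊗ₜ[ℚ] w = 0) : w = 0 := by
  have h1 : Function.Injective (TensorProduct.mk ℚ ℝ W 1) :=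
    Module.FaithfullyFlat.tensorProduct_mk_injective W
  apply h1
  rw [TensorProduct.mk_apply, h, map_zero]

lemma cont_lin (α β : C) (φ : (ℝ ⊗[ℚ] W) →ₗ[ℝ] ℝ) (g : ℝ → ℝ ⊗[ℚ] W)
    (h : ∀ φ : (ℝ ⊗[ℚ] W) →ₗ[ℝ] ℝ, Continuous fun t => φ (g t)) :
    Continuous fun t : ℝ => φ (act (W := W) ((1 - t) ⊗ₜ[ℚ] α + t ⊗ₜ[ℚ] β) (g t)) := by
  have e : ∀ t : ℝ, φ (act (W := W) ((1 - t) ⊗ₜ[ℚ] α + t ⊗ₜ[ℚ] β) (g t)) =
      (1 - t) * (φ ∘ₗ act (W := W) (1 ⊗ₜ[ℚ] α)) (g t) +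
        t * (φ ∘ₗ act (W := W) (1 ⊗ₜ[ℚ] β)) (g t) := by
    intro t
    have e1 : ∀ (r : ℝ) (c : C), (r ⊗ₜ[ℚ] c : ℝ ⊗[ℚ] C) = r • (1 ⊗ₜ[ℚ] c) := by
      intro r c
      rw [TensorProduct.smul_tmul', smul_eq_mul, mul_one]
    rw [map_add, LinearMap.add_apply, e1 (1 - t), e1 t, map_smul, map_smul, LinearMap.smul_apply,
      LinearMap.smul_apply, map_add, map_smul, map_smul, smul_eq_mul, smul_eq_mul,
      LinearMap.comp_apply, LinearMap.comp_apply]
  simp_rw [e]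
  have := h (φ ∘ₗ act (W := W) (1 ⊗ₜ[ℚ] α))
  have := h (φ ∘ₗ act (W := W) (1 ⊗ₜ[ℚ] β))
  fun_prop

lemma cont_prod {ι : Type*} (s : Finset ι) (α β : ι → C) (x : ℝ ⊗[ℚ] W) :
    ∀ φ : (ℝ ⊗[ℚ] W) →ₗ[ℝ] ℝ, Continuous fun t : ℝ =>
      φ (act (W := W) (∏ p ∈ s, ((1 - t) ⊗ₜ[ℚ] α p + t ⊗ₜ[ℚ] β p)) x) := by
  classical
  induction s using Finset.induction_on with
  | empty =>
    intro φ
    simp only [Finset.prod_empty]
    exact continuous_const
  | insert p s hp ih =>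
    intro φ
    simp only [Finset.prod_insert hp, map_mul, Module.End.mul_apply]
    exact cont_lin (α p) (β p) φ _ ih

/-- A form which is semidefinite on the rational vectors is semidefinite on the real vectors. -/
lemma semi_of_rat {P : Submodule ℚ W} [FiniteDimensional ℚ P]
    (G : (ℝ ⊗[ℚ] W) →ₗ[ℝ] (ℝ ⊗[ℚ] W) →ₗ[ℝ] ℝ)
    (h : ∀ x ∈ P, 0 ≤ G (1 ⊗ₜ[ℚ] x) (1 ⊗ₜ[ℚ] x)) {z : ℝ ⊗[ℚ] W} (hz : z ∈ P.baseChange ℝ) :
    0 ≤ G z z := by
  classical
  let b := Module.finBasis ℚ P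
  let f : (Fin (Module.finrank ℚ P) → ℝ) → ℝ ⊗[ℚ] W := fun a => ∑ i, a i ⊗ₜ[ℚ] (b i : W)
  have hf : ∃ a, f a = z := by
    rw [Submodule.baseChange_eq_span] at hz
    induction hz using Submodule.span_induction with
    | mem x hx =>
      obtain ⟨w, hw, rfl⟩ := hx
      refine ⟨fun i => (b.repr ⟨w, hw⟩ i : ℝ), ?_⟩
      obtain ⟨w', rfl⟩ : ∃ w' : P, (w' : W) = w := ⟨⟨w, hw⟩, rfl⟩
      have h1 := congrArg Subtype.val (b.sum_repr w')
      simp only [Submodule.coe_sum, Submodule.coe_smul] at h1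
      rw [TensorProduct.mk_apply]
      conv_rhs => rw [← h1, TensorProduct.tmul_sum]
      refine Finset.sum_congr rfl fun i _ => ?_
      rw [← TensorProduct.smul_tmul, Rat.smul_def, mul_one]
    | zero => exact ⟨0, by simp [f]⟩
    | add x y _ _ hx hy =>
      obtain ⟨a, rfl⟩ := hx
      obtain ⟨c, rfl⟩ := hy
      refine ⟨a + c, ?_⟩
      simp only [f, Pi.add_apply, TensorProduct.add_tmul, Finset.sum_add_distrib]
    | smul r x _ hx =>
      obtain ⟨a, rfl⟩ := hx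
      refine ⟨r • a, ?_⟩
      simp only [f, Pi.smul_apply, Finset.smul_sum, TensorProduct.smul_tmul']
  obtain ⟨a, rfl⟩ := hf
  have hcont : Continuous fun a : Fin (Module.finrank ℚ P) → ℝ => G (f a) (f a) := by
    have e : ∀ a, G (f a) (f a) = ∑ i, a i * ∑ j, a j * G (1 ⊗ₜ[ℚ] (b i : W)) (1 ⊗ₜ[ℚ] (b j : W)) := by
      intro a
      have e1 : ∀ (r : ℝ) (c : W), (r ⊗ₜ[ℚ] c : ℝ ⊗[ℚ] W) = r • (1 ⊗ₜ[ℚ] c) := by
        intro r c
        rw [TensorProduct.smul_tmul', smul_eq_mul, mul_one]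
      simp only [f]
      rw [LinearMap.map_sum₂]
      refine Finset.sum_congr rfl fun i _ => ?_
      rw [e1 (a i), map_smul, LinearMap.smul_apply, smul_eq_mul, map_sum]
      congr 1
      refine Finset.sum_congr rfl fun j _ => ?_
      rw [e1 (a j), map_smul, smul_eq_mul]
    simp_rw [e]
    fun_prop
  have hdense : DenseRange (fun (q : Fin (Module.finrank ℚ P) → ℚ) i => (q i : ℝ)) :=
    DenseRange.piMap fun _ => Rat.denseRange_cast
  refine hdense.induction_on (p := fun a => 0 ≤ G (f a) (f a)) a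
    (isClosed_le continuous_const hcont) fun q => ?_
  have e2 : f (fun i => (q i : ℝ)) = 1 ⊗ₜ[ℚ] ((∑ i, q i • b i : P) : W) := by
    simp only [f, Submodule.coe_sum, Submodule.coe_smul, TensorProduct.tmul_sum]
    refine Finset.sum_congr rfl fun i _ => ?_
    rw [← TensorProduct.smul_tmul, Rat.smul_def, mul_one]
  rw [e2]
  exact h _ (Subtype.mem _)

instance (P : Submodule ℚ W) [FiniteDimensional ℚ P] : FiniteDimensional ℝ (P.baseChange ℝ) := by
  unfold Submodule.baseChange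
  infer_instance

end Pool.Agent.H844.Hgt
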